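import Mathlib

namespace Pool.Agent.H.MP_416390_gt

open Finset

/-- determinant of three vectors of a family in three-space -/
def D (v : ℕ → Fin 3 → ℝ) (a b c : ℕ) : ℝ :=
  v a 0 * (v b 1 * v c 2 - v b 2 * v c 1) - v a 1 * (v b 0 * v c 2 - v b 2 * v c 0) +
    v a 2 * (v b 0 * v c 1 - v b 1 * v c 0)

lemma pluecker (v : ℕ → Fin 3 → ℝ) (a b c d e f : ℕ) :
    D v a b c * D v d e f - D v a b d * D v c e f + D v a b e * D v c d f -
      D v a b f * D v c d e = 0 := by
  unfold D; ring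

def ix (a b c : ℕ) : ℕ := c * (c - 1) * (c - 2) / 6 + b * (b - 1) / 2 + a
def TRI : ℕ := 55907428532312888146490578016948163388912588976950327904645546494738938899363634087235466399880
def t0 (t : ℕ) : ℕ := (TRI >>> (9 * t)) % 8
def t1 (t : ℕ) : ℕ := (TRI >>> (9 * t + 3)) % 8
def t2 (t : ℕ) : ℕ := (TRI >>> (9 * t + 6)) % 8
def p (v : ℕ → Fin 3 → ℝ) (t : ℕ) : ℝ := D v (t0 t) (t1 t) (t2 t)

def si (a b c : ℕ) : ℕ :=
  if a < b then (if b < c then ix a b c else if a < c then ix a c b else ix c a b)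
  else (if a < c then ix b a c else if b < c then ix b c a else ix c b a)

def ss (a b c : ℕ) : ℤ :=
  if a = b ∨ a = c ∨ b = c then 0 else
  if a < b then (if b < c then 1 else if a < c then -1 else 1)
  else (if a < c then -1 else if b < c then 1 else -1)

lemma tri_ix : ∀ c < 7, ∀ b < c, ∀ a < b,
    t0 (ix a b c) = a ∧ t1 (ix a b c) = b ∧ t2 (ix a b c) = c ∧ ix a b c < 35 := by
  decide +kernel

lemma ix_tri : ∀ t < 35, t0 t < t1 t ∧ t1 t < t2 t ∧ t2 t < 7 ∧ ix (t0 t) (t1 t) (t2 t) = t := by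
  decide +kernel

lemma p_ix (v : ℕ → Fin 3 → ℝ) {a b c : ℕ} (h1 : a < b) (h2 : b < c) (h3 : c < 7) :
    p v (ix a b c) = D v a b c := by
  obtain ⟨e0, e1, e2, -⟩ := tri_ix c h3 b h2 a h1
  rw [p, e0, e1, e2]

lemma D_eq (v : ℕ → Fin 3 → ℝ) {a b c : ℕ} (ha : a < 7) (hb : b < 7) (hc : c < 7) :
    D v a b c = ss a b c * p v (si a b c) := by
  unfold ss si
  by_cases h0 : a = b ∨ a = c ∨ b = c
  · rw [if_pos h0]
    rcases h0 with rfl | rfl | rfl <;> simp [D] <;> ring
  rw [if_neg h0]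
  split_ifs <;> rw [p_ix v (by omega) (by omega) (by omega)] <;> simp [D] <;> ring

/-! ### quadratic forms stored as lists -/

def lin : List ℤ → (ℕ → ℝ) → ℝ
  | [], _ => 0
  | a :: l, q => a * q 0 + lin l fun n => q (n + 1)

def bil : List (List ℤ) → (ℕ → ℝ) → (ℕ → ℝ) → ℝ
  | [], _, _ => 0
  | r :: M, x, q => x 0 * lin r q + bil M (fun n => x (n + 1)) q

def upd : ℕ → List ℤ → ℤ → List ℤ
  | 0, [], d => [d]
  | 0, a :: l, d => (a + d) :: l
  | j + 1, [], d => 0 :: upd j [] d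
  | j + 1, a :: l, d => a :: upd j l d

def upd2 : ℕ → List (List ℤ) → ℕ → ℤ → List (List ℤ)
  | 0, [], j, d => [upd j [] d]
  | 0, r :: M, j, d => upd j r d :: M
  | i + 1, [], j, d => [] :: upd2 i [] j d
  | i + 1, r :: M, j, d => r :: upd2 i M j d

lemma lin_upd (j : ℕ) : ∀ (l : List ℤ) (d : ℤ) (q : ℕ → ℝ), lin (upd j l d) q = lin l q + d * q j := by
  induction j with
  | zero => intro l d q; cases l <;> simp [upd, lin]; ring
  | succ j ih => intro l d q; cases l <;> simp [upd, lin, ih]; ring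

lemma bil_upd2 (i : ℕ) : ∀ (M : List (List ℤ)) (j : ℕ) (d : ℤ) (x q : ℕ → ℝ),
    bil (upd2 i M j d) x q = bil M x q + d * x i * q j := by
  induction i with
  | zero => intro M j d x q; cases M <;> simp [upd2, bil, lin_upd, lin] <;> ring
  | succ i ih => intro M j d x q; cases M <;> simp [upd2, bil, ih, lin]; ring

def axpy (a : ℤ) : List ℤ → List ℤ → List ℤ
  | [], r => r
  | b :: u, [] => (-(a * b)) :: axpy a u []
  | b :: u, x :: r => (x - a * b) :: axpy a u r

lemma lin_axpy (a : ℤ) (u : List ℤ) : ∀ (r : List ℤ) (q : ℕ → ℝ),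
    lin (axpy a u r) q = lin r q - a * lin u q := by
  induction u with
  | nil => intro r q; simp [axpy, lin]
  | cons b u ih => intro r q; cases r <;> simp [axpy, lin, ih] <;> ring

def subO (w : List ℤ) : List ℤ → List (List ℤ) → List (List ℤ)
  | [], M => M
  | a :: u, [] => axpy a w [] :: subO w u []
  | a :: u, r :: M => axpy a w r :: subO w u M

lemma bil_subO (w u : List ℤ) : ∀ (M : List (List ℤ)) (x q : ℕ → ℝ),
    bil (subO w u M) x q = bil M x q - lin u x * lin w q := by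
  induction u with
  | nil => intro M x q; simp [subO, lin]
  | cons a u ih => intro M x q; cases M <;> simp [subO, bil, lin, ih, lin_axpy] <;> ring

lemma lin_eq (l : List ℤ) : ∀ (n : ℕ) (q : ℕ → ℝ), l.length ≤ n →
    lin l q = ∑ j ∈ range n, (l.getD j 0 : ℝ) * q j := by
  induction l with
  | nil => intro n q _; simp [lin]
  | cons a l ih =>
    intro n q h
    obtain ⟨m, rfl⟩ : ∃ m, n = m + 1 := ⟨n - 1, by simp at h; omega⟩
    rw [sum_range_succ', lin, ih m _ (by simpa using h)]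
    simp [add_comm]

lemma bil_eq (M : List (List ℤ)) : ∀ (n : ℕ) (x q : ℕ → ℝ), M.length ≤ n →
    bil M x q = ∑ i ∈ range n, x i * lin (M.getD i []) q := by
  induction M with
  | nil => intro n x q _; simp [bil, lin]
  | cons a l ih =>
    intro n x q h
    obtain ⟨m, rfl⟩ : ∃ m, n = m + 1 := ⟨n - 1, by simp at h; omega⟩
    rw [sum_range_succ', bil, ih m _ _ (by simpa using h)]
    simp [add_comm]

def ddom (M : List (List ℤ)) (d : ℤ) : Bool :=
  decide (M.length ≤ 35) && (List.range 35).all fun i =>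
    let r := M.getD i []
    decide (r.length ≤ 35) && (List.range 35).all fun j =>
      let e := r.getD j 0
      if i = j then decide (36 * d ≤ e) else decide (-d ≤ e ∧ e ≤ d)

lemma bil_nonneg {M : List (List ℤ)} {d : ℤ} (h : ddom M d = true) (x : ℕ → ℝ) :
    0 ≤ bil M x x := by
  simp only [ddom, Bool.and_eq_true, decide_eq_true_eq, List.all_eq_true, List.mem_range] at h
  obtain ⟨h0, h⟩ := h
  rw [bil_eq M 35 x x h0]
  have key : ∀ i ∈ range 35, 36 * (d : ℝ) * x i ^ 2 -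
      ∑ j ∈ range 35, d * ((x i ^ 2 + x j ^ 2) / 2) - d * x i ^ 2 ≤ x i * lin (M.getD i []) x := by
    intro i hi
    obtain ⟨h1, h2⟩ := h i (mem_range.1 hi)
    rw [lin_eq _ 35 x h1, mul_sum]
    have : 36 * (d : ℝ) * x i ^ 2 - ∑ j ∈ range 35, d * ((x i ^ 2 + x j ^ 2) / 2) - d * x i ^ 2 =
        ∑ j ∈ range 35, ((if i = j then 35 * (d : ℝ) * x i ^ 2 else 0) -
          d * ((x i ^ 2 + x j ^ 2) / 2)) := by
      rw [sum_sub_distrib, sum_ite_eq, if_pos hi]; ring
    rw [this]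
    refine sum_le_sum fun j hj => ?_
    have h3 := h2 j (mem_range.1 hj)
    have hd : (0 : ℤ) ≤ d := by
      have := (h 0 (by norm_num)).2 1 (by norm_num)
      simp at this; omega
    have hd' : (0 : ℝ) ≤ d := by exact_mod_cast hd
    split_ifs at h3 ⊢ with hij
    · subst hij
      have h4 : ((36 * d : ℤ) : ℝ) ≤ ((M.getD i []).getD i 0 : ℤ) := by
        exact_mod_cast of_decide_eq_true h3
      push_cast at h4
      nlinarith [sq_nonneg (x i)]
    · obtain ⟨h4, h5⟩ := of_decide_eq_true h3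
      have h4' : ((-d : ℤ) : ℝ) ≤ ((M.getD i []).getD j 0 : ℤ) := by exact_mod_cast h4
      have h5' : (((M.getD i []).getD j 0 : ℤ) : ℝ) ≤ d := by exact_mod_cast h5
      push_cast at h4'
      nlinarith [mul_nonneg (sub_nonneg.2 h4') (sq_nonneg (x i + x j)),
        mul_nonneg (sub_nonneg.2 h5') (sq_nonneg (x i - x j))]
  refine le_trans (le_of_eq ?_) (sum_le_sum key)
  simp only [sum_sub_distrib, ← mul_sum, ← sum_div, sum_add_distrib, sum_const, card_range,
    nsmul_eq_mul]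
  push_cast; ring

def addDD (M : List (List ℤ)) (a b c d e f : ℕ) (w : ℤ) : List (List ℤ) :=
  let k := w * ss a b c * ss d e f
  if k = 0 then M else upd2 (si d e f) (upd2 (si a b c) M (si d e f) k) (si a b c) k

lemma bil_addDD (v : ℕ → Fin 3 → ℝ) (M : List (List ℤ)) {a b c d e f : ℕ} (ha : a < 7) (hb : b < 7)
    (hc : c < 7) (hd : d < 7) (he : e < 7) (hf : f < 7) (w : ℤ) :
    bil (addDD M a b c d e f w) (p v) (p v) =
      bil M (p v) (p v) + 2 * w * (D v a b c * D v d e f) := by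
  rw [D_eq v ha hb hc, D_eq v hd he hf]
  unfold addDD
  simp only
  split_ifs with h
  · have : ((w * ss a b c * ss d e f : ℤ) : ℝ) = 0 := by rw [h]; simp
    push_cast at this
    linear_combination (-2 * p v (si a b c) * p v (si d e f)) * this
  · rw [bil_upd2, bil_upd2]; push_cast; ring

/-- add a multiple of one Pluecker relation, coded in base 7 -/
def addRel (M : List (List ℤ)) (r : ℕ) (w : ℤ) : List (List ℤ) :=
  let a := r % 7
  let b := r / 7 % 7
  let c := r / 49 % 7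
  let d := r / 343 % 7
  let e := r / 2401 % 7
  let f := r / 16807 % 7
  addDD (addDD (addDD (addDD M a b c d e f w) a b d c e f (-w)) a b e c d f w) a b f c d e (-w)

lemma bil_addRel (v : ℕ → Fin 3 → ℝ) (M : List (List ℤ)) (r : ℕ) (w : ℤ) :
    bil (addRel M r w) (p v) (p v) = bil M (p v) (p v) := by
  have h : ∀ n : ℕ, n % 7 < 7 := fun n => Nat.mod_lt _ (by norm_num)
  simp only [addRel, bil_addDD v _ (h _) (h _) (h _) (h _) (h _) (h _)]
  push_cast
  linear_combination (2 * (w : ℝ)) * pluecker v (r % 7) (r / 7 % 7) (r / 49 % 7) (r / 343 % 7)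
    (r / 2401 % 7) (r / 16807 % 7)

def addRels (F : ℤ) : List ℕ → List ℤ → List (List ℤ) → List (List ℤ)
  | r :: R, w :: W, M => addRels F R W (addRel M r (F * w))
  | _, _, M => M

lemma bil_addRels (v : ℕ → Fin 3 → ℝ) (F : ℤ) (R : List ℕ) : ∀ (W : List ℤ) (M : List (List ℤ)),
    bil (addRels F R W M) (p v) (p v) = bil M (p v) (p v) := by
  induction R with
  | nil => intro W M; simp [addRels]
  | cons r R ih => intro W M; cases W <;> simp [addRels, ih, bil_addRel]

def addDiag (nu : ℕ → ℤ) : ℕ → List (List ℤ)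
  | 0 => []
  | n + 1 => addDD (addDiag nu n) (n % 7) (n / 7 % 7) (n / 49 % 7) (n % 7) (n / 7 % 7) (n / 49 % 7)
      (nu (n % 7))

lemma bil_addDiag (v : ℕ → Fin 3 → ℝ) (nu : ℕ → ℤ) (n : ℕ) :
    bil (addDiag nu n) (p v) (p v) =
      ∑ k ∈ range n, 2 * (nu (k % 7) : ℝ) * D v (k % 7) (k / 7 % 7) (k / 49 % 7) ^ 2 := by
  have h : ∀ n : ℕ, n % 7 < 7 := fun n => Nat.mod_lt _ (by norm_num)
  induction n with
  | zero => simp [addDiag, bil]
  | succ n ih => rw [addDiag, bil_addDD v _ (h _) (h _) (h _) (h _) (h _) (h _), ih, sum_range_succ, sq]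

lemma sum_mul7 (g : ℕ → ℕ → ℝ) (n : ℕ) : ∑ k ∈ range (n * 7), g (k % 7) (k / 7) =
    ∑ i ∈ range 7, ∑ j ∈ range n, g i j := by
  induction n with
  | zero => simp
  | succ n ih =>
    rw [add_mul, one_mul, sum_range_add, ih, ← sum_add_distrib]
    refine sum_congr rfl fun i hi => ?_
    have := mem_range.1 hi
    rw [sum_range_succ, show (n * 7 + i) % 7 = i by omega, show (n * 7 + i) / 7 = n by omega]

lemma sum_343 (g : ℕ → ℕ → ℕ → ℝ) : ∑ k ∈ range 343, g (k % 7) (k / 7 % 7) (k / 49 % 7) =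
    ∑ a ∈ range 7, ∑ b ∈ range 7, ∑ c ∈ range 7, g a b c := by
  have h1 := sum_mul7 (fun a j => g a (j % 7) (j / 7 % 7)) 49
  simp only [Nat.div_div_eq_div_mul] at h1
  refine h1.trans (sum_congr rfl fun a _ => ?_)
  refine (sum_mul7 (fun b c => g a b (c % 7)) 7).trans ?_
  refine sum_congr rfl fun b _ => sum_congr rfl fun c hc => ?_
  rw [Nat.mod_eq_of_lt (mem_range.1 hc)]

/-- orthonormal rows and equal column lengths -/
def Tight (v : ℕ → Fin 3 → ℝ) : Prop :=
  (∀ r s, ∑ i ∈ range 7, v i r * v i s = if r = s then 1 else 0) ∧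
    ∀ i < 7, v i 0 ^ 2 + v i 1 ^ 2 + v i 2 ^ 2 = 3 / 7

lemma sum_D_sq {v : ℕ → Fin 3 → ℝ} (h : Tight v) {a : ℕ} (ha : a < 7) :
    ∑ b ∈ range 7, ∑ c ∈ range 7, D v a b c ^ 2 = 6 / 7 := by
  have e : ∑ b ∈ range 7, ∑ c ∈ range 7, D v a b c ^ 2 =
      2 * (v a 0 ^ 2 * ((∑ i ∈ range 7, v i 1 * v i 1) * (∑ i ∈ range 7, v i 2 * v i 2) -
          (∑ i ∈ range 7, v i 1 * v i 2) ^ 2) +
        v a 1 ^ 2 * ((∑ i ∈ range 7, v i 0 * v i 0) * (∑ i ∈ range 7, v i 2 * v i 2) -
          (∑ i ∈ range 7, v i 0 * v i 2) ^ 2) +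
        v a 2 ^ 2 * ((∑ i ∈ range 7, v i 0 * v i 0) * (∑ i ∈ range 7, v i 1 * v i 1) -
          (∑ i ∈ range 7, v i 0 * v i 1) ^ 2) +
        2 * v a 0 * v a 1 * ((∑ i ∈ range 7, v i 1 * v i 2) * (∑ i ∈ range 7, v i 0 * v i 2) -
          (∑ i ∈ range 7, v i 0 * v i 1) * (∑ i ∈ range 7, v i 2 * v i 2)) +
        2 * v a 0 * v a 2 * ((∑ i ∈ range 7, v i 0 * v i 1) * (∑ i ∈ range 7, v i 1 * v i 2) -
          (∑ i ∈ range 7, v i 0 * v i 2) * (∑ i ∈ range 7, v i 1 * v i 1)) +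
        2 * v a 1 * v a 2 * ((∑ i ∈ range 7, v i 0 * v i 1) * (∑ i ∈ range 7, v i 0 * v i 2) -
          (∑ i ∈ range 7, v i 1 * v i 2) * (∑ i ∈ range 7, v i 0 * v i 0))) := by
    unfold D
    generalize v a 0 = x
    generalize v a 1 = y
    generalize v a 2 = z
    simp only [sum_range_succ, sum_range_zero]
    ring
  rw [e, h.1, h.1, h.1, h.1, h.1, h.1]
  have := h.2 a ha
  simp
  linarith

def eps (m : ℕ) : List ℤ := (List.range 35).map fun t => if m.testBit t then -1 else 1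

def subAll : List (List ℤ) → List (List ℤ) → List (List ℤ)
  | [], M => M
  | u :: L, M => subAll L (subO u u M)

lemma bil_subAll (x : ℕ → ℝ) (L : List (List ℤ)) : ∀ M, bil (subAll L M) x x ≤ bil M x x := by
  induction L with
  | nil => intro M; simp [subAll]
  | cons u L ih =>
    intro M
    refine (ih _).trans ?_
    rw [bil_subO]
    nlinarith [mul_self_nonneg (lin u x)]

/-- check of a semidefinite certificate for the sign vector coded by `m` -/
def cert (R : List ℕ) (m : ℕ) (K F d : ℤ) (nu mu : List ℤ) (L : List (List ℤ)) : Bool :=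
  decide (0 < K) &&
  decide (120 * ((List.range 7).map fun i => F * nu.getD i 0).sum ≤ 2198 * K) &&
  ddom (subAll L (subO (eps m) ((eps m).map (K * ·))
    (addRels F R mu (addDiag (fun i => F * nu.getD i 0) 343)))) d

lemma lin_map_mul (K : ℤ) (l : List ℤ) : ∀ q, lin (l.map (K * ·)) q = K * lin l q := by
  induction l with
  | nil => intro q; simp [lin]
  | cons a l ih => intro q; simp [lin, ih]; ring

theorem cert_sound {R : List ℕ} {m : ℕ} {K F d : ℤ} {nu mu : List ℤ} {L : List (List ℤ)}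
    (h : cert R m K F d nu mu L = true) {v : ℕ → Fin 3 → ℝ} (hv : Tight v) :
    lin (eps m) (p v) ^ 2 ≤ 157 / 5 := by
  simp only [cert, Bool.and_eq_true, decide_eq_true_eq] at h
  obtain ⟨⟨hK, hnu⟩, h⟩ := h
  have h1 := (bil_nonneg h (p v)).trans (bil_subAll _ _ _)
  rw [bil_subO, bil_addRels, bil_addDiag, lin_map_mul,
    sum_343 (fun a b c => 2 * ((F * nu.getD a 0 : ℤ) : ℝ) * D v a b c ^ 2)] at h1
  have h2 : ∑ a ∈ range 7, ∑ b ∈ range 7, ∑ c ∈ range 7,
      2 * ((F * nu.getD a 0 : ℤ) : ℝ) * D v a b c ^ 2 =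
      ∑ a ∈ range 7, 12 / 7 * ((F * nu.getD a 0 : ℤ) : ℝ) := by
    refine sum_congr rfl fun a ha => ?_
    simp only [← mul_sum]
    rw [sum_D_sq hv (mem_range.1 ha)]; ring
  rw [h2, ← mul_sum] at h1
  have h3 : ((120 * ((List.range 7).map fun i => F * nu.getD i 0).sum : ℤ) : ℝ) ≤ (2198 * K : ℤ) := by
    exact_mod_cast hnu
  have h4 : ((((List.range 7).map fun i => F * nu.getD i 0).sum : ℤ) : ℝ) =
      ∑ a ∈ range 7, ((F * nu.getD a 0 : ℤ) : ℝ) := by
    rw [← Int.cast_sum]; rfl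
  rw [Int.cast_mul, h4] at h3
  push_cast at h3 h1
  have hK' : (0 : ℝ) < K := by exact_mod_cast hK
  nlinarith

end Pool.Agent.H.MP_416390_gt
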