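import Mathlib
import Pool.Agent.H.MP_416390_gt.A

namespace Pool.Agent.H.MP_416390_gt

def REL : List ℕ := [75124, 91931, 108738, 94332, 111139, 113540, 94675, 111482, 113883, 114226, 75173, 91980, 108787, 94381, 111188, 113589, 94724, 111531, 113932, 114275, 94773, 111580, 113981, 114324, 114373, 94682, 111489, 113890, 114233, 75180, 91987, 108794, 94388, 111195, 113596, 94731, 111538, 113939, 114282, 94780, 111587, 113988, 114331, 114380, 114240, 75187, 91994, 108801, 94395, 111202, 113603, 94738, 111545, 113946, 114289, 94787, 111594, 113995, 114338, 114387, 75194, 92001, 108808, 94402, 111209, 113610, 94745, 111552, 113953, 114296, 94794, 111601, 114002, 114345, 114394, 75201, 92008, 108815, 94409, 111216, 113617, 94752, 111559, 113960, 114303, 94801, 111608, 114009, 114352, 114401, 75208, 92015, 108822, 94416, 111223, 113624, 94759, 111566, 113967, 114310, 94808, 111615, 114016, 114359, 114408, 94732, 111539, 113940, 114283, 94781, 111588, 113989, 114332, 114381, 114290, 94788, 111595, 113996, 114339, 114388, 94795, 111602, 114003, 114346, 114395, 94802, 111609, 114010, 114353, 114402, 94809, 111616, 114017,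 114360, 114409, 114340, 114389, 114396, 114403, 114410]

def MASK : List ℕ := [0, 8, 72, 328, 4424, 4198728, 4199240, 4215624, 20992840, 33536, 49920]

end Pool.Agent.H.MP_416390_gt
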