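import Mathlib
import Pool.Agent.H.MP_416390_gt.R

namespace Pool.Agent.H.MP_416390_gt

open Finset Filter Topology

def Good (π : ℕ → ℕ) : Prop := (∀ i < 7, π i < 7) ∧ ∀ i < 7, ∀ j < 7, π i = π j → i = j

lemma Good.sum {π : ℕ → ℕ} (h : Good π) (g : ℕ → ℝ) :
    ∑ i ∈ range 7, g (π i) = ∑ i ∈ range 7, g i := by
  have hinj : Set.InjOn π (range 7 : Finset ℕ) := fun i hi j hj e =>
    h.2 i (by simpa using hi) j (by simpa using hj) e
  have : (range 7).image π = range 7 := by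
    apply eq_of_subset_of_card_le
    · intro x hx
      obtain ⟨i, hi, rfl⟩ := mem_image.1 hx
      exact mem_range.2 (h.1 i (mem_range.1 hi))
    · rw [card_image_of_injOn hinj]
  conv_rhs => rw [← this]
  rw [sum_image hinj]

def tr (π : ℕ → ℕ) (s : ℕ → ℝ) (v : ℕ → Fin 3 → ℝ) : ℕ → Fin 3 → ℝ := fun i r => s i * v (π i) r

lemma D_tr (π : ℕ → ℕ) (s : ℕ → ℝ) (v : ℕ → Fin 3 → ℝ) (a b c : ℕ) :
    D (tr π s v) a b c = s a * s b * s c * D v (π a) (π b) (π c) := by
  unfold D tr; ring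

def Sg (s : ℕ → ℝ) : Prop := ∀ i, s i = 1 ∨ s i = -1

lemma Sg.sq {s : ℕ → ℝ} (h : Sg s) (i : ℕ) : s i * s i = 1 := by
  rcases h i with e | e <;> rw [e] <;> norm_num

lemma Sg.abs {s : ℕ → ℝ} (h : Sg s) (i : ℕ) : |s i| = 1 := by
  rcases h i with e | e <;> rw [e] <;> norm_num

lemma Tight.tr {v : ℕ → Fin 3 → ℝ} (h : Tight v) {π : ℕ → ℕ} (hπ : Good π) {s : ℕ → ℝ}
    (hs : Sg s) : Tight (tr π s v) := by
  refine ⟨fun r r' => ?_, fun i hi => ?_⟩
  · rw [← h.1 r r', ← hπ.sum fun i => v i r * v i r']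
    refine sum_congr rfl fun i _ => ?_
    unfold MP_416390_gt.tr
    linear_combination (v (π i) r * v (π i) r') * hs.sq i
  · have := h.2 _ (hπ.1 i hi)
    unfold MP_416390_gt.tr
    linear_combination this + (v (π i) 0 ^ 2 + v (π i) 1 ^ 2 + v (π i) 2 ^ 2) * hs.sq i

def S6 (v : ℕ → Fin 3 → ℝ) : ℝ := ∑ a ∈ range 7, ∑ b ∈ range 7, ∑ c ∈ range 7, |D v a b c|

lemma S6_tr (v : ℕ → Fin 3 → ℝ) {π : ℕ → ℕ} (hπ : Good π) {s : ℕ → ℝ} (hs : Sg s) :
    S6 (tr π s v) = S6 v := by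
  unfold S6
  simp only [D_tr, abs_mul, hs.abs, one_mul]
  rw [← hπ.sum fun a => ∑ b ∈ range 7, ∑ c ∈ range 7, |D v a b c|]
  refine sum_congr rfl fun a _ => ?_
  rw [← hπ.sum fun b => ∑ c ∈ range 7, |D v (π a) b c|]
  refine sum_congr rfl fun b _ => ?_
  rw [← hπ.sum fun c => |D v (π a) (π b) c|]

lemma cnt6 : ∀ t < 35, (∑ a ∈ range 7, ∑ b ∈ range 7, ∑ c ∈ range 7,
    if si a b c = t then |ss a b c| else 0) = 6 := by decide +kernel

lemma si_lt : ∀ a < 7, ∀ b < 7, ∀ c < 7, si a b c < 35 ∨ ss a b c = 0 := by decide +kernel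

def S1 (v : ℕ → Fin 3 → ℝ) : ℝ := ∑ t ∈ range 35, |p v t|

lemma S6_eq (v : ℕ → Fin 3 → ℝ) : S6 v = 6 * S1 v := by
  have h1 : S6 v = ∑ a ∈ range 7, ∑ b ∈ range 7, ∑ c ∈ range 7, ∑ t ∈ range 35,
      ((if si a b c = t then |ss a b c| else 0 : ℤ) : ℝ) * |p v t| := by
    refine sum_congr rfl fun a ha => sum_congr rfl fun b hb => sum_congr rfl fun c hc => ?_
    rw [D_eq v (mem_range.1 ha) (mem_range.1 hb) (mem_range.1 hc)]
    rcases si_lt a (mem_range.1 ha) b (mem_range.1 hb) c (mem_range.1 hc) with h | h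
    · rw [sum_eq_single_of_mem (si a b c) (mem_range.2 h)]
      · simp [abs_mul]
      · intro t _ ht
        rw [if_neg ht.symm]; simp
    · simp [h]
  rw [h1, S1, mul_sum]
  simp only [sum_comm (t := range 35)]
  refine sum_congr rfl fun t ht => ?_
  simp only [← sum_mul, ← Int.cast_sum]
  rw [cnt6 t (mem_range.1 ht)]; norm_num

lemma S1_tr (v : ℕ → Fin 3 → ℝ) {π : ℕ → ℕ} (hπ : Good π) {s : ℕ → ℝ} (hs : Sg s) :
    S1 (tr π s v) = S1 v := by
  have := S6_tr v hπ hs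
  rw [S6_eq, S6_eq] at this; linarith

/-- `u` is generic and its determinants have weakly the signs of those of `v` -/
def Agree (v u : ℕ → Fin 3 → ℝ) : Prop := ∀ a < 7, ∀ b < 7, ∀ c < 7, a ≠ b → a ≠ c → b ≠ c →
  D u a b c ≠ 0 ∧ 0 ≤ D v a b c * D u a b c

lemma Agree.tr {v u : ℕ → Fin 3 → ℝ} (h : Agree v u) {π : ℕ → ℕ} (hπ : Good π) {s : ℕ → ℝ}
    (hs : Sg s) : Agree (tr π s v) (tr π s u) := by
  intro a ha b hb c hc hab hac hbc
  obtain ⟨h1, h2⟩ := h _ (hπ.1 a ha) _ (hπ.1 b hb) _ (hπ.1 c hc)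
    (fun e => hab (hπ.2 a ha b hb e)) (fun e => hac (hπ.2 a ha c hc e))
    (fun e => hbc (hπ.2 b hb c hc e))
  rw [D_tr, D_tr]
  rcases hs a with e1 | e1 <;> rcases hs b with e2 | e2 <;> rcases hs c with e3 | e3 <;>
    rw [e1, e2, e3] <;> exact ⟨by simpa using h1, by simpa using h2⟩

lemma exists_agree (v : ℕ → Fin 3 → ℝ) : ∃ u, Agree v u := by
  let u : ℝ → ℕ → Fin 3 → ℝ := fun τ i r => v i r + τ * (i : ℝ) ^ (r : ℕ)
  have key : ∀ᶠ τ in 𝓝[≠] (0 : ℝ), ∀ a ∈ range 7, ∀ b ∈ range 7, ∀ c ∈ range 7,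
      a ≠ b → a ≠ c → b ≠ c → D (u τ) a b c ≠ 0 ∧ 0 ≤ D v a b c * D (u τ) a b c := by
    simp only [eventually_all_finset]
    intro a _ b _ c _
    by_cases hab : a = b
    · exact Eventually.of_forall fun τ h => absurd hab h
    by_cases hac : a = c
    · exact Eventually.of_forall fun τ _ h => absurd hac h
    by_cases hbc : b = c
    · exact Eventually.of_forall fun τ _ _ h => absurd hbc h
    obtain ⟨E, hE⟩ : ∃ E : ℝ, E = ((b : ℝ) - a) * ((c : ℝ) - a) * ((c : ℝ) - b) := ⟨_, rfl⟩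
    have hE0 : E ≠ 0 := by
      rw [hE]
      refine mul_ne_zero (mul_ne_zero ?_ ?_) ?_ <;> rw [sub_ne_zero] <;> norm_cast <;> omega
    obtain ⟨B, C, hf⟩ : ∃ B C : ℝ, ∀ τ, D (u τ) a b c =
        D v a b c + B * τ + C * τ ^ 2 + E * τ ^ 3 := by
      refine ⟨(D (u 1) a b c - D (u (-1)) a b c) / 2 - E,
        (D (u 1) a b c + D (u (-1)) a b c) / 2 - D v a b c, fun τ => ?_⟩
      simp only [D, u, hE, Fin.val_zero, Fin.val_one, Fin.val_two]
      ring
    have h1 : ∀ᶠ τ in 𝓝[≠] (0 : ℝ), D (u τ) a b c ≠ 0 := by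
      let q : Polynomial ℝ := Polynomial.C (D v a b c) + Polynomial.C B * Polynomial.X +
        Polynomial.C C * Polynomial.X ^ 2 + Polynomial.C E * Polynomial.X ^ 3
      have hq : q ≠ 0 := by
        intro h
        have : q.coeff 3 = E := by
          simp [q, Polynomial.coeff_X_pow]
        rw [h] at this
        exact hE0 (by simpa using this.symm)
      refine ((Polynomial.finite_setOfPred_isRoot hq).eventually_cofinite_notMem.filter_mono
        (nhdsNE_le_cofinite 0)).mono fun τ hτ h => hτ ?_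
      rw [hf] at h
      simpa [q] using h
    have h2 : ∀ᶠ τ in 𝓝[≠] (0 : ℝ), 0 ≤ D v a b c * D (u τ) a b c := by
      by_cases h0 : D v a b c = 0
      · simp [h0]
      have hc : Continuous fun τ : ℝ => D v a b c * D (u τ) a b c := by
        simp only [hf]; fun_prop
      have := hc.continuousAt (x := 0) |>.eventually (lt_mem_nhds (a := 0) (by
        simp only [hf]; simpa using h0))
      exact (this.filter_mono nhdsWithin_le_nhds).mono fun τ h => le_of_lt h
    filter_upwards [h1, h2] with τ h1 h2 _ _ _ using ⟨h1, h2⟩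
  obtain ⟨τ, hτ⟩ := key.exists
  exact ⟨u τ, fun a ha b hb c hc =>
    hτ a (mem_range.2 ha) b (mem_range.2 hb) c (mem_range.2 hc)⟩

def Nrm (u : ℕ → Fin 3 → ℝ) : Prop := ∀ i j, 1 ≤ i → i < j → j < 7 → 0 < D u 0 i j

lemma reduce_norm {P : (ℕ → Fin 3 → ℝ) → Prop}
    (hP : ∀ v π s, Good π → Sg s → P (tr π s v) → P v)
    (h : ∀ v u, Tight v → Agree v u → Nrm u → P v) : ∀ v, Tight v → P v := by
  have half : ∀ v u, Tight v → Agree v u → (∀ j, 2 ≤ j → j < 7 → 0 < D u 0 1 j) → P v := by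
    intro v u hv hu h1
    let key : Fin 5 → ℝ := fun i => D u 0 2 (i + 2) / D u 0 1 (i + 2)
    let σ := Tuple.sort key
    let π : ℕ → ℕ := fun i => if h : 2 ≤ i ∧ i < 7 then (σ ⟨i - 2, by omega⟩).val + 2 else i
    have hπ : Good π := by
      refine ⟨fun i hi => ?_, fun i hi j hj e => ?_⟩
      · simp only [π]; split_ifs with h
        · have := (σ ⟨i - 2, by omega⟩).2; omega
        · exact hi
      · simp only [π] at e; split_ifs at e with h h' h'
        · have := σ.injective (Fin.ext (by omega : (σ ⟨i - 2, by omega⟩).val =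
            (σ ⟨j - 2, by omega⟩).val))
          simp only [Fin.mk.injEq] at this; omega
        · omega
        · omega
        · exact e
    have hs : Sg fun _ => 1 := fun _ => Or.inl rfl
    refine hP v π _ hπ hs (h _ _ (hv.tr hπ hs) (hu.tr hπ hs) fun i j hi hij hj => ?_)
    rw [D_tr]
    have e0 : π 0 = 0 := by simp [π]
    have ej : π j = (σ ⟨j - 2, by omega⟩).val + 2 := by
      simp only [π]; rw [dif_pos ⟨by omega, hj⟩]
    have hj2 := h1 (π j) (by omega) (hπ.1 j hj)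
    rcases hi.eq_or_lt with rfl | hi
    · have e1 : π 1 = 1 := by simp [π]
      rw [e0, e1]; simpa using hj2
    have ei : π i = (σ ⟨i - 2, by omega⟩).val + 2 := by
      simp only [π]; rw [dif_pos ⟨by omega, by omega⟩]
    have hi2 := h1 (π i) (by omega) (hπ.1 i (by omega))
    have hm : key (σ ⟨i - 2, by omega⟩) ≤ key (σ ⟨j - 2, by omega⟩) :=
      Tuple.monotone_sort key (show (⟨i - 2, by omega⟩ : Fin 5) ≤ ⟨j - 2, by omega⟩ by
        simp only [Fin.mk_le_mk]; omega)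
    simp only [key] at hm
    rw [← ei, ← ej, div_le_div_iff₀ hi2 hj2] at hm
    have h12 := h1 2 le_rfl (by norm_num)
    have hne := (hu 0 (by norm_num) _ (hπ.1 i (by omega)) _ (hπ.1 j hj) (by omega) (by omega)
      (fun e => by have := hπ.2 i (by omega) j hj e; omega)).1
    have pl : D u 0 1 2 * D u 0 (π i) (π j) =
        D u 0 1 (π i) * D u 0 2 (π j) - D u 0 1 (π j) * D u 0 2 (π i) := by unfold D; ring
    rw [e0]
    have : 0 ≤ D u 0 (π i) (π j) := by
      by_contra hn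
      push Not at hn
      nlinarith
    simpa using lt_of_le_of_ne this hne.symm
  intro v hv
  obtain ⟨u, hu⟩ := exists_agree v
  let s : ℕ → ℝ := fun j => if 2 ≤ j ∧ D u 0 1 j < 0 then -1 else 1
  have hs : Sg s := fun j => by
    simp only [s]; split_ifs <;> simp
  have hπ : Good id := ⟨fun i hi => hi, fun i _ j _ e => e⟩
  refine hP v id s hπ hs (half _ _ (hv.tr hπ hs) (hu.tr hπ hs) fun j hj hj' => ?_)
  rw [D_tr]
  have hne := (hu 0 (by norm_num) 1 (by norm_num) j hj' (by omega) (by omega) (by omega)).1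
  simp only [s, id]
  rw [if_neg (by omega), if_neg (by omega)]
  split_ifs with h
  · linarith [h.2]
  · have : 0 ≤ D u 0 1 j := by
      by_contra hn
      exact h ⟨hj, not_le.1 hn⟩
    simpa using lt_of_le_of_ne this hne.symm

end Pool.Agent.H.MP_416390_gt
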