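import Mathlib
import Pool.Agent.H.MP_416390_gt.E
import Pool.Agent.H.MP_416390_gt.C0
import Pool.Agent.H.MP_416390_gt.C1
import Pool.Agent.H.MP_416390_gt.C2

namespace Pool.Agent.H.MP_416390_gt

open Finset

def mk (χ : ℕ → Bool) : ℕ → ℕ
  | 0 => 0
  | n + 1 => if χ n then mk χ n ||| 2 ^ n else mk χ n

lemma testBit_mk (χ : ℕ → Bool) (n t : ℕ) : (mk χ n).testBit t = (decide (t < n) && χ t) := by
  induction n with
  | zero => simp [mk]
  | succ n ih =>
    rw [mk]
    by_cases h : t = n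
    · subst h
      cases hχ : χ t <;> simp [ih, hχ]
    · have e : decide (t < n + 1) = decide (t < n) := by
        simp only [decide_eq_decide]; omega
      split_ifs
      · rw [Nat.testBit_or, ih, Nat.testBit_two_pow_of_ne (Ne.symm h), e]; simp
      · rw [ih, e]

lemma na_of {a b c x y z : ℝ} (ha : 0 < a) (hb : 0 < b) (hc : 0 < c) (hx : x ≠ 0) (hz : z ≠ 0)
    (e : a * x - b * y + c * z = 0) :
    na (decide (x < 0)) (decide (y < 0)) (decide (z < 0)) = true := by
  unfold na
  rcases hx.lt_or_gt with hx | hx <;> rcases hz.lt_or_gt with hz | hz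
  · have : y < 0 := by
      by_contra h
      push Not at h
      nlinarith [mul_pos ha (neg_pos.2 hx), mul_pos hc (neg_pos.2 hz), mul_nonneg hb.le h]
    simp [hx, hz, this]
  · simp [hx, hz.le]
  · simp [hx.le, hz]
  · have : 0 ≤ y := by
      by_contra h
      push Not at h
      nlinarith [mul_pos ha hx, mul_pos hc hz, mul_pos hb (neg_pos.2 h)]
    simp [hx.not_gt, hz.not_gt, this.not_gt]

lemma ix_lt : ∀ t < 35, ∀ i < t0 t, ix i (t0 t) (t1 t) < t + 1 ∧ ix i (t0 t) (t2 t) < t + 1 ∧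
    ix i (t1 t) (t2 t) < t + 1 := by decide +kernel

lemma ok_mk {v u : ℕ → Fin 3 → ℝ} (hu : Agree v u) (hn : Nrm u) {t : ℕ} (ht : t < 35) :
    ok t (mk (fun t => decide (p u t < 0)) (t + 1)) = true := by
  obtain ⟨h1, h2, h3, -⟩ := ix_tri t ht
  unfold ok
  split_ifs with h0
  · have := hn (t1 t) (t2 t) (by omega) h2 h3
    rw [← h0] at this
    simp [testBit_mk, p, this.le]
  rw [List.all_eq_true]
  intro i hi
  rw [List.mem_range] at hi
  rcases Nat.eq_zero_or_pos i with rfl | hi0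
  · simp
  obtain ⟨e1, e2, e3⟩ := ix_lt t ht i hi
  simp only [testBit_mk, e1, e2, e3, Nat.lt_succ_self, decide_true, Bool.true_and]
  rw [p_ix u hi h1 (by omega), p_ix u hi (by omega) h3, p_ix u (by omega) h2 h3, p]
  generalize t0 t = j at *
  generalize t1 t = k at *
  generalize t2 t = l at *
  have n1 := (hu i (by omega) j (by omega) k (by omega) (by omega) (by omega) (by omega)).1
  have n2 := (hu i (by omega) j (by omega) l (by omega) (by omega) (by omega) (by omega)).1
  have n3 := (hu i (by omega) k (by omega) l (by omega) (by omega) (by omega) (by omega)).1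
  have n4 := (hu j (by omega) k (by omega) l (by omega) (by omega) (by omega) (by omega)).1
  have pij := hn i j (by omega) (by omega) (by omega)
  have pik := hn i k (by omega) (by omega) (by omega)
  have pil := hn i l (by omega) (by omega) (by omega)
  have pjk := hn j k (by omega) (by omega) (by omega)
  have pjl := hn j l (by omega) (by omega) (by omega)
  have pkl := hn k l (by omega) (by omega) (by omega)
  rw [na_of pil pik pij n1 n3 (by unfold D; ring), na_of pjl pjk pij n1 n4 (by unfold D; ring),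
    na_of pkl pjk pik n1 n4 (by unfold D; ring), na_of pkl pjl pil n2 n4 (by unfold D; ring)]
  simp

lemma mk_mem {v u : ℕ → Fin 3 → ℝ} (hu : Agree v u) (hn : Nrm u) :
    ∀ t ≤ 35, mk (fun t => decide (p u t < 0)) t ∈ LV t := by
  intro t
  induction t with
  | zero => intro _; simp [mk, LV]
  | succ t ih =>
    intro ht
    refine mem_step (ok_mk hu hn (by omega)) (ih (by omega)) ?_
    rw [mk]; split_ifs <;> simp

lemma bt_eq (m n : ℕ) : bt m n = (m.testBit n).toNat := by
  rw [Nat.toNat_testBit, ← Nat.shiftRight_eq_div_pow]; rfl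

lemma tabs : ∀ a < 7, ∀ b < 7, ∀ c < 7, a = b ∨ a = c ∨ b = c ∨
    (ss a b c = sg PAR (kk a b c) ∧ si a b c = sj (kk a b c) ∧ si a b c < 35) := by
  decide +kernel

lemma TL_mem : ∀ t < 35, (t, t0 t, t1 t, t2 t) ∈ TL := by decide +kernel

lemma par6 (x1 x2 x3 x4 x5 x6 : Bool)
    (h : Nat.beq (Nat.mod (Nat.add (Nat.add (Nat.add x1.toNat x2.toNat) (Nat.add x3.toNat x4.toNat))
      (Nat.add x5.toNat x6.toNat)) 2) 0 = true) :
    (if x1 then -1 else 1 : ℤ) * (if x2 then -1 else 1) * (if x3 then -1 else 1) *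
      (if x4 then -1 else 1) * (if x5 then -1 else 1) = (if x6 then -1 else 1) := by
  revert x1 x2 x3 x4 x5 x6; decide

lemma cls {w : ℕ → Fin 3 → ℝ} (hw : Tight w) : ∀ c < 11,
    lin (eps (MASK.getD c 0)) (p w) ^ 2 ≤ 157 / 5 := by
  intro c hc
  interval_cases c
  exacts [cert2_sound ct0 hw, cert2_sound ct1 hw, cert2_sound ct2 hw, cert2_sound ct3 hw,
    cert2_sound ct4 hw, cert2_sound ct5 hw, cert2_sound ct6 hw, cert2_sound ct7 hw,
    cert2_sound ct8 hw, cert2_sound ct9 hw, cert2_sound ct10 hw]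

theorem tight_bound : ∀ v, Tight v → S1 v ^ 2 ≤ 157 / 5 := by
  refine reduce_norm (P := fun v => S1 v ^ 2 ≤ 157 / 5)
    (fun v π s hπ hs h => by rwa [S1_tr v hπ hs] at h) fun v u hv hu hn => ?_
  obtain ⟨d, hd⟩ := chkAll_mem chk_all _ (mk_mem hu hn 35 le_rfl)
  generalize hm : mk (fun t => decide (p u t < 0)) 35 = m at hd
  simp only [leaf, frb_eq, Bool.and_eq_true, List.all_eq_true, List.mem_range,
    decide_eq_true_eq, Nat.blt_eq, Bool.not_eq_true'] at hd
  obtain ⟨⟨hg, hc⟩, hk⟩ := hd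
  have hπ : Good (pr d) := by
    refine ⟨fun i hi => (hg i hi).1, fun i hi j hj e => ?_⟩
    rcases lt_trichotomy i j with h | h | h
    · have := (hg j hj).2 i h
      rw [e] at this; simp at this
    · exact h
    · have := (hg i hi).2 j h
      rw [e] at this; simp at this
  let s : ℕ → ℝ := fun i => (sg d (21 + i) : ℝ)
  have hs : Sg s := fun i => by
    simp only [s, sg]; split_ifs <;> simp
  have hb := cls (hv.tr hπ hs) _ hc
  rw [lin_eq _ 35 _ (by simp [eps])] at hb
  rw [← S1_tr v hπ hs, S1]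
  convert hb using 2
  refine sum_congr rfl fun t ht => ?_
  have ht' := mem_range.1 ht
  generalize MASK.getD (d >>> 28) 0 = M at *
  have e0 : (eps M).getD t 0 = sg M t := by
    simp [eps, sg, List.getD_eq_getElem?_getD, ht']
  rw [e0]
  obtain ⟨h1, h2, h3, -⟩ := ix_tri t ht'
  have hk' := hk _ (TL_mem t ht')
  simp only [ck, bt_eq] at hk'
  have hp := par6 _ _ _ _ _ _ hk'
  have hA := hu.tr hπ hs (t0 t) (by omega) (t1 t) (by omega) (t2 t) h3 (by omega) (by omega)
    (by omega)
  have a7 := hπ.1 (t0 t) (by omega)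
  have b7 := hπ.1 (t1 t) (by omega)
  have c7 := hπ.1 (t2 t) h3
  rcases tabs _ a7 _ b7 _ c7 with h | h | h | ⟨f1, f2, f3⟩
  · have := hπ.2 _ (by omega) _ (by omega) h; omega
  · have := hπ.2 _ (by omega) _ (by omega) h; omega
  · have := hπ.2 _ (by omega) _ (by omega) h; omega
  rw [← f2] at hp
  have hp' : ((sg d (21 + t0 t) * sg d (21 + t1 t) * sg d (21 + t2 t) *
      ss (pr d (t0 t)) (pr d (t1 t)) (pr d (t2 t)) *
      sg m (si (pr d (t0 t)) (pr d (t1 t)) (pr d (t2 t))) : ℤ) : ℝ) = (sg M t : ℤ) := by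
    rw [f1]; exact congrArg _ hp
  push_cast at hp'
  have hq : p u (si (pr d (t0 t)) (pr d (t1 t)) (pr d (t2 t))) =
      sg m (si (pr d (t0 t)) (pr d (t1 t)) (pr d (t2 t))) *
        |p u (si (pr d (t0 t)) (pr d (t1 t)) (pr d (t2 t)))| := by
    rw [sg, ← hm, testBit_mk]
    generalize p u _ = x
    rcases lt_or_ge x 0 with h | h
    · simp [f3, h, abs_of_neg h]
    · simp [h.not_gt, abs_of_nonneg h]
  rw [D_tr _ _ u, D_eq u a7 b7 c7, hq] at hA
  have hy := abs_nonneg (p u (si (pr d (t0 t)) (pr d (t1 t)) (pr d (t2 t))))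
  generalize |p u (si (pr d (t0 t)) (pr d (t1 t)) (pr d (t2 t)))| = y at hA hy
  have key : s (t0 t) * s (t1 t) * s (t2 t) * (ss (pr d (t0 t)) (pr d (t1 t)) (pr d (t2 t)) *
      (sg m (si (pr d (t0 t)) (pr d (t1 t)) (pr d (t2 t))) * y)) = sg M t * y := by
    rw [← hp']; simp only [s]; ring
  rw [key] at hA
  obtain ⟨hA1, hA2⟩ := hA
  have hy' : 0 < y := lt_of_le_of_ne hy fun h => hA1 (by rw [← h]; simp)
  rw [p]
  generalize D (tr (pr d) s v) (t0 t) (t1 t) (t2 t) = x at hA2
  have hx : 0 ≤ (sg M t : ℝ) * x := by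
    by_contra h
    push Not at h
    nlinarith
  unfold sg at hx ⊢
  split_ifs at hx ⊢
  · push_cast at hx ⊢
    rw [abs_of_nonpos (by linarith)]; ring
  · push_cast at hx ⊢
    rw [abs_of_nonneg (by linarith)]; ring

end Pool.Agent.H.MP_416390_gt
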