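import Mathlib
import Pool.Agent.H.MP_416390_gt.R

namespace Pool.Agent.H.MP_416390_gt

open Finset

def SSN : ℕ := 107017331109361171981124206516302489586812316055504807421615290678306105829941361951763755658084208728369384867667554784882044131542391632559499053163924334162075344880563417812540160931966573288299799598421

def SI : ℕ := 990938903165496327534405473864465056600993846267567941426655543369100225446615150380563939193169494079160795772588047188351762349928352254987842521050961845065507584932117918906807137105337331798991221602021657170314638883086336743431594959830491230988459587362236785174759453123899516811326633465585964517097288453797333086510539905031370183402687002436753724832132078193793859767077468407910420311256155836895954409904166016530756165845362080038126740203107655851152345889446478101500027828933802565130494472618845099660544585183783688265955379537587558094456981652879182553992106453174077610442883072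

def kk (a b c : ℕ) : ℕ := Nat.add (Nat.mul 49 a) (Nat.add (Nat.mul 7 b) c)

def sj (k : ℕ) : ℕ := Nat.mod (Nat.shiftRight SI (Nat.mul 6 k)) 64

def sst (k : ℕ) : ℤ := Int.subNatNat (Nat.mod (Nat.shiftRight SSN (Nat.mul 2 k)) 4) 1

set_option synthInstance.maxSize 2000 in
lemma tab2 : ∀ a < 7, ∀ b < 7, ∀ c < 7, ss a b c = sst (kk a b c) ∧
    (ss a b c = 0 ∨ si a b c = sj (kk a b c)) ∧ sj (kk a b c) < 35 ∧ |sst (kk a b c)| ≤ 1 := by
  decide +kernel

lemma D_eq2 (v : ℕ → Fin 3 → ℝ) {a b c : ℕ} (ha : a < 7) (hb : b < 7) (hc : c < 7) :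
    D v a b c = sst (kk a b c) * p v (sj (kk a b c)) := by
  obtain ⟨h1, h2, -⟩ := tab2 a ha b hb c hc
  rw [D_eq v ha hb hc, ← h1]
  rcases h2 with h | h <;> simp [h]

def pw (i j : ℕ) : ℤ := Int.ofNat (Nat.shiftLeft 1 (Nat.mul 64 (Nat.add (Nat.mul 35 i) j)))

lemma pw_eq (i j : ℕ) : pw i j = ((2 : ℤ) ^ 64) ^ (35 * i + j) := by
  have : Nat.shiftLeft 1 (Nat.mul 64 (Nat.add (Nat.mul 35 i) j)) = 2 ^ (64 * (35 * i + j)) :=
    Nat.one_shiftLeft _
  rw [pw, this, ← pow_mul]; simp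

def hP (b : ℕ) : List ℤ → ℕ
  | [] => 0
  | a :: l => Nat.add (Int.toNat a) (Nat.mul b (hP b l))

def hM (b : ℕ) : List ℤ → ℕ
  | [] => 0
  | a :: l => Nat.add (Int.toNat (Int.neg a)) (Nat.mul b (hM b l))

def hor (b : ℕ) (l : List ℤ) : ℤ := Int.subNatNat (hP b l) (hM b l)

lemma hor_eq (b : ℕ) (l : List ℤ) : ∀ n : ℕ, l.length ≤ n →
    hor b l = ∑ j ∈ range n, l.getD j 0 * (b : ℤ) ^ j := by
  induction l with
  | nil => intro n _; simp [hor, hP, hM]
  | cons a l ih =>
    intro n h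
    obtain ⟨m, rfl⟩ : ∃ m, n = m + 1 := ⟨n - 1, by simp at h; omega⟩
    have e : hor b (a :: l) = a + b * hor b l := by
      have e1 : Int.neg a = -a := rfl
      simp only [hor, hP, hM, Int.subNatNat_eq_coe, Nat.add_eq, Nat.mul_eq, e1]
      push_cast
      linear_combination Int.toNat_sub_toNat_neg a
    rw [sum_range_succ', e, ih m (by simpa using h)]
    simp only [List.getD_cons_succ, List.getD_cons_zero, pow_zero, mul_one, mul_sum]
    rw [add_comm]
    congr 1
    exact sum_congr rfl fun j _ => by ring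

/-- `P` packs an integer matrix with entries bounded by `bd` whose quadratic form at `x` is `q` -/
def Rep (x : ℕ → ℝ) (P bd : ℤ) (q : ℝ) : Prop := ∃ f : ℕ → ℕ → ℤ,
  P = ∑ i ∈ range 35, ∑ j ∈ range 35, f i j * ((2 : ℤ) ^ 64) ^ (35 * i + j) ∧
  (∀ i j, |f i j| ≤ bd) ∧ q = ∑ i ∈ range 35, ∑ j ∈ range 35, f i j * (x i * x j)

variable {x : ℕ → ℝ}

lemma Rep.zero : Rep x 0 0 0 := ⟨0, by simp, by simp, by simp⟩

lemma Rep.add {P P' b b' : ℤ} {q q' : ℝ} (h : Rep x P b q) (h' : Rep x P' b' q') :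
    Rep x (Int.add P P') (b + b') (q + q') := by
  obtain ⟨f, rfl, h2, rfl⟩ := h
  obtain ⟨g, rfl, h2', rfl⟩ := h'
  refine ⟨f + g, ?_, fun i j => (abs_add_le _ _).trans (add_le_add (h2 i j) (h2' i j)), ?_⟩
  · simp only [Int.add_def, Pi.add_apply, add_mul, sum_add_distrib]
  · simp only [Pi.add_apply, Int.cast_add, add_mul, sum_add_distrib]

lemma Rep.mono {P b b' : ℤ} {q q' : ℝ} (h : Rep x P b q) (hb : b ≤ b') (hq : q = q') :
    Rep x P b' q' := by
  obtain ⟨f, h1, h2, h3⟩ := h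
  exact ⟨f, h1, fun i j => (h2 i j).trans hb, hq ▸ h3⟩

lemma Rep.single (k : ℤ) {a b : ℕ} (ha : a < 35) (hb : b < 35) :
    Rep x (k * pw a b) |k| (k * (x a * x b)) := by
  refine ⟨fun i j => if i = a then (if j = b then k else 0) else 0, ?_, fun i j => ?_, ?_⟩
  · rw [sum_eq_single_of_mem a (mem_range.2 ha) (fun i _ h => by simp [h]),
      sum_eq_single_of_mem b (mem_range.2 hb) (fun i _ h => by simp [h]), pw_eq]
    simp
  · beta_reduce; split_ifs <;> simp
  · rw [sum_eq_single_of_mem a (mem_range.2 ha) (fun i _ h => by simp [h]),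
      sum_eq_single_of_mem b (mem_range.2 hb) (fun i _ h => by simp [h])]
    simp

def B1 : ℕ := 18446744073709551616

def B35 : ℕ := Nat.shiftLeft 1 2240

def outer (u w : List ℤ) : ℤ := Int.mul (hor B35 u) (hor B1 w)

lemma outer_eq {u w : List ℤ} (hu : u.length ≤ 35) (hw : w.length ≤ 35) : outer u w =
    ∑ i ∈ range 35, ∑ j ∈ range 35, u.getD i 0 * w.getD j 0 * ((2 : ℤ) ^ 64) ^ (35 * i + j) := by
  have e1 : (B1 : ℤ) = 2 ^ 64 := by norm_num [B1]
  have e2 : (B35 : ℤ) = (2 ^ 64) ^ 35 := by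
    have := pw_eq 1 0
    rw [mul_one, add_zero] at this
    rw [← this]; rfl
  rw [outer, hor_eq _ u 35 hu, hor_eq _ w 35 hw, Int.mul_def, sum_mul_sum, e1, e2]
  refine sum_congr rfl fun i _ => sum_congr rfl fun j _ => ?_
  rw [pow_add, pow_mul]; ring

lemma getD_le {u : List ℤ} {m : ℤ} (h0 : 0 ≤ m) (h : ∀ a ∈ u, |a| ≤ m) (i : ℕ) :
    |u.getD i 0| ≤ m := by
  rcases Nat.lt_or_ge i u.length with hi | hi
  · rw [List.getD_eq_getElem _ _ hi]; exact h _ (List.getElem_mem hi)
  · rw [List.getD_eq_default _ _ hi]; simpa using h0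

lemma Rep.outer {u w : List ℤ} (hu : u.length ≤ 35) (hw : w.length ≤ 35) {m m' : ℤ}
    (h0 : 0 ≤ m) (h0' : 0 ≤ m') (h : ∀ a ∈ u, |a| ≤ m) (h' : ∀ a ∈ w, |a| ≤ m') :
    Rep x (Int.neg (outer u w)) (m * m') (-(lin u x * lin w x)) := by
  refine ⟨fun i j => -(u.getD i 0 * w.getD j 0), ?_, fun i j => ?_, ?_⟩
  · rw [outer_eq hu hw]
    simp only [neg_mul, sum_neg_distrib]; rfl
  · rw [abs_neg, abs_mul]
    exact mul_le_mul (getD_le h0 h i) (getD_le h0' h' j) (abs_nonneg _) h0
  · rw [lin_eq u 35 x hu, lin_eq w 35 x hw, sum_mul_sum]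
    simp only [← sum_neg_distrib]
    exact sum_congr rfl fun i _ => sum_congr rfl fun j _ => by push_cast; ring

lemma dig (B : ℕ) (N : ℕ) : ∀ (g : ℕ → ℕ), (∀ n < N, g n < B) → ∀ k < N,
    (∑ n ∈ range N, g n * B ^ n) / B ^ k % B = g k := by
  induction N with
  | zero => intro g _ k hk; omega
  | succ N ih =>
    intro g hg k hk
    have e : ∑ n ∈ range (N + 1), g n * B ^ n = g 0 + B * ∑ n ∈ range N, g (n + 1) * B ^ n := by
      rw [sum_range_succ', mul_sum, add_comm]
      simp only [pow_zero, mul_one]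
      congr 1
      exact sum_congr rfl fun n _ => by ring
    have h0 := hg 0 (by omega)
    rw [e]
    cases k with
    | zero => simp [Nat.mod_eq_of_lt h0]
    | succ k =>
      rw [pow_succ', ← Nat.div_div_eq_div_mul, Nat.add_mul_div_left _ _ (by omega),
        Nat.div_eq_of_lt h0, zero_add]
      exact ih (fun n => g (n + 1)) (fun n hn => hg _ (by omega)) k (by omega)

lemma sum_mul35 (g : ℕ → ℕ → ℕ) (n : ℕ) : ∑ k ∈ range (35 * n), g (k / 35) (k % 35) =
    ∑ i ∈ range n, ∑ j ∈ range 35, g i j := by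
  induction n with
  | zero => simp
  | succ n ih =>
    have : ∑ i ∈ range 35, g ((35 * n + i) / 35) ((35 * n + i) % 35) = ∑ j ∈ range 35, g n j :=
      sum_congr rfl fun i hi => by
        have := mem_range.1 hi
        rw [show (35 * n + i) / 35 = n by omega, show (35 * n + i) % 35 = i by omega]
    rw [mul_add, mul_one, sum_range_add, ih, sum_range_succ _ n, this]

def frb (n : ℕ) (f : ℕ → Bool) : Bool :=
  match n with
  | 0 => f 0
  | Nat.succ k => f (Nat.succ k)

lemma frb_eq (n : ℕ) (f : ℕ → Bool) : frb n f = f n := by cases n <;> rfl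

def dg (N i j : ℕ) : ℕ :=
  Nat.mod (Nat.shiftRight N (Nat.mul 64 (Nat.add (Nat.mul 35 i) j))) 18446744073709551616

def dd (P : ℤ) (d : ℕ) : Bool :=
  frb (Int.toNat (Int.add P (outer (List.replicate 35 1) (List.replicate 35 9223372036854775808)))) fun N =>
    (List.range 35).all fun i => (List.range 35).all fun j => frb (dg N i j) fun e =>
      bif Nat.beq i j then Nat.ble (Nat.add 9223372036854775808 (Nat.mul 36 d)) e
      else Nat.ble 9223372036854775808 (Nat.add e d) && Nat.ble e (Nat.add 9223372036854775808 d)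

lemma dom_nonneg (f : ℕ → ℕ → ℤ) (d : ℕ) (x : ℕ → ℝ) (h1 : ∀ i < 35, 36 * (d : ℤ) ≤ f i i)
    (h2 : ∀ i < 35, ∀ j < 35, i ≠ j → -(d : ℤ) ≤ f i j ∧ f i j ≤ d) :
    0 ≤ ∑ i ∈ range 35, ∑ j ∈ range 35, f i j * (x i * x j) := by
  have key : ∀ i ∈ range 35, 36 * (d : ℝ) * x i ^ 2 -
      ∑ j ∈ range 35, d * ((x i ^ 2 + x j ^ 2) / 2) - d * x i ^ 2 ≤
        ∑ j ∈ range 35, f i j * (x i * x j) := by
    intro i hi
    have : 36 * (d : ℝ) * x i ^ 2 - ∑ j ∈ range 35, d * ((x i ^ 2 + x j ^ 2) / 2) - d * x i ^ 2 =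
        ∑ j ∈ range 35, ((if i = j then 35 * (d : ℝ) * x i ^ 2 else 0) -
          d * ((x i ^ 2 + x j ^ 2) / 2)) := by
      rw [sum_sub_distrib, sum_ite_eq, if_pos hi]; ring
    rw [this]
    refine sum_le_sum fun j hj => ?_
    have hd' : (0 : ℝ) ≤ d := by positivity
    split_ifs with hij
    · subst hij
      have h4 : ((36 * d : ℤ) : ℝ) ≤ (f i i : ℤ) := by exact_mod_cast h1 i (mem_range.1 hi)
      push_cast at h4
      nlinarith [sq_nonneg (x i)]
    · obtain ⟨h4, h5⟩ := h2 i (mem_range.1 hi) j (mem_range.1 hj) hij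
      have h4' : ((-d : ℤ) : ℝ) ≤ (f i j : ℤ) := by exact_mod_cast h4
      have h5' : ((f i j : ℤ) : ℝ) ≤ d := by exact_mod_cast h5
      push_cast at h4'
      nlinarith [mul_nonneg (sub_nonneg.2 h4') (sq_nonneg (x i + x j)),
        mul_nonneg (sub_nonneg.2 h5') (sq_nonneg (x i - x j))]
  refine le_trans (le_of_eq ?_) (sum_le_sum key)
  simp only [sum_sub_distrib, ← mul_sum, ← sum_div, sum_add_distrib, sum_const, card_range,
    nsmul_eq_mul]
  push_cast; ring

lemma Rep.final {P b : ℤ} {q : ℝ} {d : ℕ} (h : Rep x P b q) (hb : b < 9223372036854775808)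
    (hd : dd P d = true) : 0 ≤ q := by
  obtain ⟨f, rfl, h2, rfl⟩ := h
  have hf : ∀ i j, ((f i j + 9223372036854775808).toNat : ℤ) = f i j + 9223372036854775808 := fun i j =>
    Int.toNat_of_nonneg (by have := abs_le.1 (h2 i j); omega)
  have e : Int.toNat (Int.add (∑ i ∈ range 35, ∑ j ∈ range 35,
      f i j * ((2 : ℤ) ^ 64) ^ (35 * i + j))
      (MP_416390_gt.outer (List.replicate 35 1) (List.replicate 35 9223372036854775808))) =
      ∑ n ∈ range (35 * 35), (f (n / 35) (n % 35) + 9223372036854775808).toNat * (2 ^ 64) ^ n := by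
    have e1 := sum_mul35 (fun i j => (f i j + 9223372036854775808).toNat * (2 ^ 64) ^ (35 * i + j)) 35
    simp only [Nat.div_add_mod] at e1
    rw [e1, outer_eq (by simp) (by simp), Int.add_def, ← sum_add_distrib]
    have : ∀ i ∈ range 35, ∑ j ∈ range 35, f i j * ((2 : ℤ) ^ 64) ^ (35 * i + j) +
        ∑ j ∈ range 35, (List.replicate 35 (1 : ℤ)).getD i 0 *
          (List.replicate 35 (9223372036854775808 : ℤ)).getD j 0 * ((2 : ℤ) ^ 64) ^ (35 * i + j) =
        ((∑ j ∈ range 35, (f i j + 9223372036854775808).toNat * (2 ^ 64) ^ (35 * i + j) : ℕ) : ℤ) := by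
      intro i hi
      rw [← sum_add_distrib, Nat.cast_sum]
      refine sum_congr rfl fun j hj => ?_
      rw [List.getD_replicate _ (mem_range.1 hi), List.getD_replicate _ (mem_range.1 hj),
        Nat.cast_mul, hf, Nat.cast_pow, Nat.cast_pow, Nat.cast_ofNat]
      ring
    rw [sum_congr rfl this, ← Nat.cast_sum, Int.toNat_natCast]
  rw [dd, frb_eq, e] at hd
  have hg : ∀ i < 35, ∀ j < 35, dg (∑ n ∈ range (35 * 35),
      (f (n / 35) (n % 35) + 9223372036854775808).toNat * (2 ^ 64) ^ n) i j = (f i j + 9223372036854775808).toNat := by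
    intro i hi j hj
    have := dig (2 ^ 64) (35 * 35) (fun n => (f (n / 35) (n % 35) + 9223372036854775808).toNat)
      (fun n _ => by have := abs_le.1 (h2 (n / 35) (n % 35)); omega) (35 * i + j) (by omega)
    simp only [show (35 * i + j) / 35 = i by omega, show (35 * i + j) % 35 = j by omega] at this
    rw [← this, ← pow_mul, ← Nat.shiftRight_eq_div_pow]
    rfl
  simp only [List.all_eq_true, List.mem_range, frb_eq] at hd
  refine dom_nonneg f d x (fun i hi => ?_) fun i hi j hj hij => ?_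
  · have := hd i hi i hi
    rw [hg i hi i hi, Nat.beq_refl, cond_true, Nat.ble_eq, Nat.add_eq, Nat.mul_eq] at this
    have := hf i i
    omega
  · have := hd i hi j hj
    rw [hg i hi j hj, (Bool.eq_false_iff.2 fun h => hij (Nat.eq_of_beq_eq_true h) :
      Nat.beq i j = false), cond_false, Bool.and_eq_true, Nat.ble_eq, Nat.ble_eq, Nat.add_eq,
      Nat.add_eq] at this
    have := hf i j
    omega

def tDD (k l : ℕ) (w : ℤ) : ℤ :=
  Int.mul (Int.mul (Int.mul w (sst k)) (sst l)) (Int.add (pw (sj k) (sj l)) (pw (sj l) (sj k)))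

lemma Rep.tDD (v : ℕ → Fin 3 → ℝ) {a b c d e f : ℕ} (ha : a < 7) (hb : b < 7)
    (hc : c < 7) (hd : d < 7) (he : e < 7) (hf : f < 7) (w : ℤ) :
    Rep (p v) (tDD (kk a b c) (kk d e f) w) (2 * |w|) (2 * w * (D v a b c * D v d e f)) := by
  obtain ⟨-, -, h1, h2⟩ := tab2 a ha b hb c hc
  obtain ⟨-, -, h3, h4⟩ := tab2 d hd e he f hf
  have := (Rep.single (x := p v) (w * sst (kk a b c) * sst (kk d e f)) h1 h3).add
    (Rep.single (w * sst (kk a b c) * sst (kk d e f)) h3 h1)
  rw [Int.add_def, ← mul_add] at this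
  refine this.mono ?_ ?_
  · rw [abs_mul, abs_mul]
    have := mul_le_mul h2 h4 (abs_nonneg _) zero_le_one
    nlinarith [abs_nonneg w]
  · rw [D_eq2 v ha hb hc, D_eq2 v hd he hf]; push_cast; ring

def tRel (a b c d e f : ℕ) (w : ℤ) : ℤ :=
  Int.add (Int.add (tDD (kk a b c) (kk d e f) w) (tDD (kk a b d) (kk c e f) (Int.neg w)))
    (Int.add (tDD (kk a b e) (kk c d f) w) (tDD (kk a b f) (kk c d e) (Int.neg w)))

def m7 (r k : ℕ) : ℕ := Nat.mod (Nat.div r k) 7

lemma m7_lt (r k : ℕ) : m7 r k < 7 := Nat.mod_lt _ (by norm_num)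

def sumRels (F : ℤ) : List ℕ → List ℤ → ℤ
  | r :: R, w :: W => Int.add (tRel (m7 r 1) (m7 r 7) (m7 r 49) (m7 r 343) (m7 r 2401) (m7 r 16807)
      (Int.mul F w)) (sumRels F R W)
  | _, _ => 0

def bdRels (F : ℤ) : List ℤ → ℤ
  | [] => 0
  | w :: W => 8 * |F * w| + bdRels F W

lemma bdRels_nonneg (F : ℤ) (W : List ℤ) : 0 ≤ bdRels F W := by
  induction W with
  | nil => simp [bdRels]
  | cons w W ih => rw [bdRels]; positivity

lemma Rep.sumRels (v : ℕ → Fin 3 → ℝ) (F : ℤ) (R : List ℕ) : ∀ W : List ℤ,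
    Rep (p v) (sumRels F R W) (bdRels F W) 0 := by
  induction R with
  | nil => intro W; exact Rep.zero.mono (bdRels_nonneg F W) rfl
  | cons r R ih =>
    intro W
    cases W with
    | nil => exact Rep.zero
    | cons w W =>
      have h := m7_lt r
      refine ((((Rep.tDD v (h _) (h _) (h _) (h _) (h _) (h _) _).add
        (Rep.tDD v (h _) (h _) (h _) (h _) (h _) (h _) _)).add
        ((Rep.tDD v (h _) (h _) (h _) (h _) (h _) (h _) _).add
        (Rep.tDD v (h _) (h _) (h _) (h _) (h _) (h _) _))).add (ih W)).mono ?_ ?_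
      · have e : ∀ z : ℤ, Int.neg z = -z := fun _ => rfl
        rw [bdRels, e, abs_neg, Int.mul_def]; linarith
      · have e : ∀ z : ℤ, Int.neg z = -z := fun _ => rfl
        rw [e]
        push_cast
        linear_combination (2 * ((Int.mul F w : ℤ) : ℝ)) * pluecker v (m7 r 1) (m7 r 7) (m7 r 49)
          (m7 r 343) (m7 r 2401) (m7 r 16807)

def sumDiag (nu : ℕ → ℤ) : ℕ → ℤ
  | 0 => 0
  | n + 1 => Int.add (sumDiag nu n) (tDD (kk (m7 n 1) (m7 n 7) (m7 n 49))
      (kk (m7 n 1) (m7 n 7) (m7 n 49)) (nu (m7 n 1)))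

lemma Rep.sumDiag (v : ℕ → Fin 3 → ℝ) (nu : ℕ → ℤ) {m : ℤ} (hm : ∀ i < 7, |nu i| ≤ m) (n : ℕ) :
    Rep (p v) (sumDiag nu n) (2 * n * m)
      (∑ k ∈ range n, 2 * (nu (k % 7) : ℝ) * D v (k % 7) (k / 7 % 7) (k / 49 % 7) ^ 2) := by
  induction n with
  | zero => exact Rep.zero.mono (by simp) (by simp)
  | succ n ih =>
    have h := m7_lt n
    refine (ih.add (Rep.tDD v (h _) (h _) (h _) (h _) (h _) (h _) _)).mono ?_ ?_
    · have := hm _ (h 1)
      push_cast; linarith
    · have e : m7 n 1 = n % 7 := by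
        show n / 1 % 7 = n % 7
        rw [Nat.div_one]
      rw [sum_range_succ, sq, e]; rfl

def sumL : List (List ℤ) → ℤ
  | [] => 0
  | u :: L => Int.add (Int.neg (outer u u)) (sumL L)

def okL (m : ℕ) (L : List (List ℤ)) : Bool :=
  L.all fun u => Nat.ble u.length 35 && u.all fun a => Nat.ble a.natAbs m

lemma Rep.sumL {m : ℕ} (L : List (List ℤ)) (h : okL m L = true) :
    ∃ q ≤ (0 : ℝ), Rep x (sumL L) (L.length * (m * m)) q := by
  induction L with
  | nil => exact ⟨0, le_rfl, Rep.zero.mono (by simp) rfl⟩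
  | cons u L ih =>
    simp only [okL, List.all_cons, Bool.and_eq_true, Nat.ble_eq, List.all_eq_true] at h ih
    obtain ⟨q, hq, hR⟩ := ih h.2
    have hu : ∀ a ∈ u, |a| ≤ (m : ℤ) := fun a ha => by
      have := h.1.2 a ha
      rw [Int.abs_eq_natAbs]; exact_mod_cast this
    refine ⟨_, ?_, ((Rep.outer h.1.1 h.1.1 (by positivity) (by positivity) hu hu).add hR).mono
      ?_ rfl⟩
    · nlinarith [mul_self_nonneg (lin u x)]
    · simp only [List.length_cons]; push_cast; linarith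

/-- check of a semidefinite certificate for the sign vector coded by `m` -/
def cert2 (R : List ℕ) (m : ℕ) (K F : ℤ) (d b n0 : ℕ) (nu mu : List ℤ) (L : List (List ℤ)) : Bool :=
  decide (0 < K) &&
  decide (120 * ((List.range 7).map fun i => F * nu.getD i 0).sum ≤ 2198 * K) &&
  ((List.range 7).all fun i => decide (|F * nu.getD i 0| ≤ n0)) && okL b L &&
  decide (2 * (343 : ℕ) * (n0 : ℤ) + bdRels F mu + (1 * K + L.length * (b * b)) < 9223372036854775808) &&
  dd (Int.add (Int.add (sumDiag (fun i => F * nu.getD i 0) 343) (sumRels F R mu))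
    (Int.add (Int.neg (outer (eps m) ((eps m).map (K * ·)))) (sumL L))) d

theorem cert2_sound {R : List ℕ} {m : ℕ} {K F : ℤ} {d b n0 : ℕ} {nu mu : List ℤ}
    {L : List (List ℤ)} (h : cert2 R m K F d b n0 nu mu L = true) {v : ℕ → Fin 3 → ℝ}
    (hv : Tight v) : lin (eps m) (p v) ^ 2 ≤ 157 / 5 := by
  simp only [cert2, Bool.and_eq_true, decide_eq_true_eq, List.all_eq_true, List.mem_range] at h
  obtain ⟨⟨⟨⟨⟨hK, hnu⟩, hn0⟩, hL⟩, hb⟩, h⟩ := h
  obtain ⟨q, hq, hR⟩ := Rep.sumL (x := p v) L hL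
  have he : ∀ a ∈ eps m, |a| ≤ 1 := by
    intro a ha
    simp only [eps, List.mem_map] at ha
    obtain ⟨t, -, rfl⟩ := ha
    split_ifs <;> simp
  have he' : ∀ a ∈ (eps m).map (K * ·), |a| ≤ K := by
    intro a ha
    obtain ⟨t, ht, rfl⟩ := List.mem_map.1 ha
    rw [abs_mul, abs_of_pos hK]
    exact mul_le_of_le_one_right hK.le (he t ht)
  have h1 := (((Rep.sumDiag v _ hn0 343).add (Rep.sumRels v F R mu)).add
    ((Rep.outer (by simp [eps]) (by simp [eps]) zero_le_one hK.le he he').add hR)).final hb h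
  rw [lin_map_mul, sum_343 (fun a b c => 2 * ((F * nu.getD a 0 : ℤ) : ℝ) * D v a b c ^ 2)] at h1
  have h2 : ∑ a ∈ range 7, ∑ b ∈ range 7, ∑ c ∈ range 7,
      2 * ((F * nu.getD a 0 : ℤ) : ℝ) * D v a b c ^ 2 =
      ∑ a ∈ range 7, 12 / 7 * ((F * nu.getD a 0 : ℤ) : ℝ) := by
    refine sum_congr rfl fun a ha => ?_
    simp only [← mul_sum]
    rw [sum_D_sq hv (mem_range.1 ha)]; ring
  rw [h2, ← mul_sum] at h1
  have h3 : ((120 * ((List.range 7).map fun i => F * nu.getD i 0).sum : ℤ) : ℝ) ≤ (2198 * K : ℤ) := by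
    exact_mod_cast hnu
  have h4 : ((((List.range 7).map fun i => F * nu.getD i 0).sum : ℤ) : ℝ) =
      ∑ a ∈ range 7, ((F * nu.getD a 0 : ℤ) : ℝ) := by
    rw [← Int.cast_sum]; rfl
  rw [Int.cast_mul, h4] at h3
  push_cast at h3 h1
  have hK' : (0 : ℝ) < K := by exact_mod_cast hK
  clear h hb hL hR hn0 h4 h2 hnu he he'
  generalize lin (eps m) (p v) = y at *
  generalize ∑ a ∈ range 7, (F : ℝ) * (nu.getD a 0 : ℤ) = z at *
  nlinarith

end Pool.Agent.H.MP_416390_gt
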