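import Mathlib
import Pool.Agent.H.MP_416390_gt.B

namespace Pool.Agent.H.MP_416390_gt

open Finset Filter Topology MeasureTheory

def Z (v : ℕ → Fin 3 → ℝ) : Set (Fin 3 → ℝ) :=
  {z | ∃ x : ℕ → ℝ, (∀ i, x i ∈ Set.Icc (0 : ℝ) 1) ∧ ∀ r, z r = ∑ i ∈ range 7, x i * v i r}

def Rc (v : ℕ → Fin 3 → ℝ) (w : ℕ → ℝ) (a b c j : ℕ) : ℝ :=
  D v a b c * w j - D v j b c * w a - D v a j c * w b - D v a b j * w c

def dir (v : ℕ → Fin 3 → ℝ) (a b c j i : ℕ) : ℝ :=
  (if i = j then D v a b c else 0) - (if i = a then D v j b c else 0) -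
    (if i = b then D v a j c else 0) - (if i = c then D v a b j else 0)

lemma sum_dir (v : ℕ → Fin 3 → ℝ) (w : ℕ → ℝ) {a b c j : ℕ} (ha : a < 7) (hb : b < 7) (hc : c < 7)
    (hj : j < 7) : ∑ i ∈ range 7, dir v a b c j i * w i = Rc v w a b c j := by
  simp only [dir, Rc, sub_mul, sum_sub_distrib, ite_mul, zero_mul, sum_ite_eq', mem_range, ha, hb,
    hc, hj, if_true]

lemma Rc_col (v : ℕ → Fin 3 → ℝ) (a b c j : ℕ) (r : Fin 3) :
    Rc v (fun i => v i r) a b c j = 0 := by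
  fin_cases r <;> simp [Rc, D] <;> ring

def Gen (v : ℕ → Fin 3 → ℝ) (w : ℕ → ℝ) : Prop := ∀ a < 7, ∀ b < 7, ∀ c < 7, ∀ j < 7,
  D v a b c ≠ 0 → j ≠ a → j ≠ b → j ≠ c → Rc v w a b c j ≠ 0

lemma exists_gen (v : ℕ → Fin 3 → ℝ) : ∃ w, Gen v w := by
  let ι := {q : Fin 7 × Fin 7 × Fin 7 × Fin 7 // D v q.1 q.2.1 q.2.2.1 ≠ 0 ∧
    (q.2.2.2 : ℕ) ≠ q.1 ∧ (q.2.2.2 : ℕ) ≠ q.2.1 ∧ (q.2.2.2 : ℕ) ≠ q.2.2.1}
  let g : ℕ → ℕ → ℕ → ℕ → Module.Dual ℝ (ℕ → ℝ) := fun a b c j =>
    D v a b c • LinearMap.proj j - D v j b c • LinearMap.proj a - D v a j c • LinearMap.proj b -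
      D v a b j • LinearMap.proj c
  have hg : ∀ a b c j w, g a b c j w = Rc v w a b c j := fun a b c j w => by simp [g, Rc]
  obtain ⟨w, hw⟩ := Module.Dual.exists_forall_ne_zero_of_forall_exists
    (fun q : ι => g q.1.1 q.1.2.1 q.1.2.2.1 q.1.2.2.2) (fun q => ⟨Pi.single (q.1.2.2.2 : ℕ) 1, by
      obtain ⟨h0, h1, h2, h3⟩ := q.2
      rw [hg, Rc]
      simpa [Pi.single_eq_of_ne h1.symm, Pi.single_eq_of_ne h2.symm, Pi.single_eq_of_ne h3.symm]
        using h0⟩)
  refine ⟨w, fun a ha b hb c hc j hj h0 h1 h2 h3 => ?_⟩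
  rw [← hg]
  exact hw ⟨(⟨a, ha⟩, ⟨b, hb⟩, ⟨c, hc⟩, ⟨j, hj⟩), h0, h1, h2, h3⟩

noncomputable def pt (v : ℕ → Fin 3 → ℝ) (w : ℕ → ℝ) (a b c : ℕ) (y : Fin 3 → ℝ) (j : ℕ) : ℝ :=
  if j = a then y 0 else if j = b then y 1 else if j = c then y 2 else
    if 0 < D v a b c * Rc v w a b c j then 1 else 0

noncomputable def Lm (v : ℕ → Fin 3 → ℝ) (a b c : ℕ) : (Fin 3 → ℝ) →ₗ[ℝ] (Fin 3 → ℝ) :=
  Matrix.toLin' (Matrix.of fun r k => v (![a, b, c] k) r)

lemma Lm_apply (v : ℕ → Fin 3 → ℝ) (a b c : ℕ) (y : Fin 3 → ℝ) (r : Fin 3) :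
    Lm v a b c y r = y 0 * v a r + y 1 * v b r + y 2 * v c r := by
  simp [Lm, Matrix.mulVec, dotProduct, Fin.sum_univ_three]; ring

lemma Lm_det (v : ℕ → Fin 3 → ℝ) (a b c : ℕ) : LinearMap.det (Lm v a b c) = D v a b c := by
  rw [Lm, LinearMap.det_toLin', Matrix.det_fin_three]
  simp [D]; ring

noncomputable def Par (v : ℕ → Fin 3 → ℝ) (w : ℕ → ℝ) (a b c : ℕ) (B : Set (Fin 3 → ℝ)) :
    Set (Fin 3 → ℝ) :=
  (fun y => (fun r => ∑ i ∈ range 7, pt v w a b c 0 i * v i r) + y) '' (Lm v a b c '' B)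

lemma vol_Par (v : ℕ → Fin 3 → ℝ) (w : ℕ → ℝ) (a b c : ℕ) (B : Set (Fin 3 → ℝ)) :
    volume (Par v w a b c B) = ENNReal.ofReal |D v a b c| * volume B := by
  rw [Par, Set.image_add_left, measure_preimage_add, Measure.addHaar_image_linearMap, Lm_det]

lemma mem_Par {v : ℕ → Fin 3 → ℝ} {w : ℕ → ℝ} {a b c : ℕ} (h1 : a < b) (h2 : b < c) (h3 : c < 7)
    {B : Set (Fin 3 → ℝ)} {z : Fin 3 → ℝ} : z ∈ Par v w a b c B ↔
      ∃ y ∈ B, ∀ r, z r = ∑ i ∈ range 7, pt v w a b c y i * v i r := by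
  have key : ∀ y r, ∑ i ∈ range 7, pt v w a b c y i * v i r =
      ∑ i ∈ range 7, pt v w a b c 0 i * v i r + Lm v a b c y r := by
    intro y r
    have : ∀ i, pt v w a b c y i = pt v w a b c 0 i + ((if i = a then y 0 else 0) +
        (if i = b then y 1 else 0) + (if i = c then y 2 else 0)) := by
      intro i
      unfold pt
      split_ifs <;> first | omega | simp
    simp only [this, add_mul, sum_add_distrib, ite_mul, zero_mul, sum_ite_eq', mem_range,
      show a < 7 by omega, show b < 7 by omega, h3, if_true, Lm_apply]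
  simp only [Par, Set.mem_image, exists_exists_and_eq_and]
  refine exists_congr fun y => and_congr_right fun _ => ⟨fun h r => ?_, fun h => ?_⟩
  · rw [← h, key]; rfl
  · funext r; rw [h, key y]; rfl

lemma ev_Icc {x d : ℝ} (hx : x ∈ Set.Icc (0 : ℝ) 1) (h1 : 0 < d → x < 1) (h2 : d < 0 → 0 < x) :
    ∀ᶠ ε in 𝓝[>] (0 : ℝ), x + ε * d ∈ Set.Icc (0 : ℝ) 1 := by
  have hc : Continuous fun ε : ℝ => x + ε * d := by fun_prop
  rcases lt_trichotomy d 0 with h | h | h
  · have := (hc.continuousAt (x := 0)).eventually (lt_mem_nhds (a := 0) (by simpa using h2 h))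
    filter_upwards [this.filter_mono nhdsWithin_le_nhds, self_mem_nhdsWithin] with ε h3 h4
    exact ⟨le_of_lt h3, by nlinarith [hx.2, Set.mem_Ioi.1 h4]⟩
  · simp [h, hx.1, hx.2]
  · have := (hc.continuousAt (x := 0)).eventually (gt_mem_nhds (a := 1) (by simpa using h1 h))
    filter_upwards [this.filter_mono nhdsWithin_le_nhds, self_mem_nhdsWithin] with ε h3 h4
    exact ⟨by nlinarith [hx.1, Set.mem_Ioi.1 h4], le_of_lt h3⟩

set_option synthInstance.maxSize 2000 in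
lemma si_mem : ∀ a < 7, ∀ b < 7, ∀ c < 7, ss a b c = 0 ∨ (si a b c < 35 ∧
    (t0 (si a b c) = a ∨ t0 (si a b c) = b ∨ t0 (si a b c) = c) ∧
    (t1 (si a b c) = a ∨ t1 (si a b c) = b ∨ t1 (si a b c) = c) ∧
    (t2 (si a b c) = a ∨ t2 (si a b c) = b ∨ t2 (si a b c) = c)) := by decide +kernel

lemma exists_det {v : ℕ → Fin 3 → ℝ} {F : Set ℕ} (h : Submodule.span ℝ (v '' F) = ⊤) :
    ∃ a ∈ F, ∃ b ∈ F, ∃ c ∈ F, D v a b c ≠ 0 := by
  by_contra hn
  push Not at hn
  let e : (Fin 3 → ℝ) → (Fin 3 → ℝ) → (Fin 3 → ℝ) → ℝ := fun x y z =>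
    x 0 * (y 1 * z 2 - y 2 * z 1) - x 1 * (y 0 * z 2 - y 2 * z 0) + x 2 * (y 0 * z 1 - y 1 * z 0)
  have ind : ∀ P : (Fin 3 → ℝ) → Prop, (∀ a ∈ F, P (v a)) → P 0 → (∀ x y, P x → P y → P (x + y)) →
      (∀ (t : ℝ) x, P x → P (t • x)) → ∀ x, P x := by
    intro P h1 h2 h3 h4 x
    have hx : x ∈ Submodule.span ℝ (v '' F) := by rw [h]; trivial
    induction hx using Submodule.span_induction with
    | mem x hx => obtain ⟨a, ha, rfl⟩ := hx; exact h1 a ha
    | zero => exact h2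
    | add x y _ _ hx hy => exact h3 x y hx hy
    | smul t x _ hx => exact h4 t x hx
  have h1 : ∀ a ∈ F, ∀ b ∈ F, ∀ z, e (v a) (v b) z = 0 := fun a ha b hb =>
    ind _ (fun c hc => hn a ha b hb c hc) (by simp [e])
      (fun x y hx hy => by simp only [e, Pi.add_apply] at *; linear_combination hx + hy)
      (fun t x hx => by simp only [e, Pi.smul_apply, smul_eq_mul] at *; linear_combination t * hx)
  have h2 : ∀ z, ∀ a ∈ F, ∀ y, e (v a) y z = 0 := fun z a ha =>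
    ind _ (fun b hb => h1 a ha b hb z) (by simp [e])
      (fun x y hx hy => by simp only [e, Pi.add_apply] at *; linear_combination hx + hy)
      (fun t x hx => by simp only [e, Pi.smul_apply, smul_eq_mul] at *; linear_combination t * hx)
  have h3 : ∀ y z x, e x y z = 0 := fun y z =>
    ind _ (fun a ha => h2 z a ha y) (by simp [e])
      (fun x y hx hy => by simp only [e, Pi.add_apply] at *; linear_combination hx + hy)
      (fun t x hx => by simp only [e, Pi.smul_apply, smul_eq_mul] at *; linear_combination t * hx)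
  simpa [e] using h3 ![0, 1, 0] ![0, 0, 1] ![1, 0, 0]

lemma lp_step {v : ℕ → Fin 3 → ℝ} {w x d : ℕ → ℝ} (hx : ∀ i, x i ∈ Set.Icc (0 : ℝ) 1)
    (hmax : ∀ x' : ℕ → ℝ, (∀ i, x' i ∈ Set.Icc (0 : ℝ) 1) →
      (∀ r, ∑ i ∈ range 7, x' i * v i r = ∑ i ∈ range 7, x i * v i r) →
      ∑ i ∈ range 7, x' i * w i ≤ ∑ i ∈ range 7, x i * w i)
    (hd : ∀ r, ∑ i ∈ range 7, d i * v i r = 0)
    (h1 : ∀ i, 0 < d i → x i < 1) (h2 : ∀ i, d i < 0 → 0 < x i) :
    ∑ i ∈ range 7, d i * w i ≤ 0 := by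
  have : ∀ᶠ ε in 𝓝[>] (0 : ℝ), ∀ i ∈ range 7, x i + ε * d i ∈ Set.Icc (0 : ℝ) 1 := by
    rw [eventually_all_finset]
    exact fun i _ => ev_Icc (hx i) (h1 i) (h2 i)
  obtain ⟨ε, hε, h0⟩ := (this.and self_mem_nhdsWithin).exists
  have e : ∀ g : ℕ → ℝ, ∑ i ∈ range 7, (if i < 7 then x i + ε * d i else x i) * g i =
      ∑ i ∈ range 7, x i * g i + ε * ∑ i ∈ range 7, d i * g i := by
    intro g
    rw [mul_sum, ← sum_add_distrib]
    refine sum_congr rfl fun i hi => ?_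
    rw [if_pos (mem_range.1 hi)]; ring
  have := hmax (fun i => if i < 7 then x i + ε * d i else x i) (fun i => by
    split_ifs with h
    exacts [hε i (mem_range.2 h), hx i]) (fun r => by
    rw [e fun i => v i r, hd]; simp)
  rw [e] at this
  have h0' : 0 < ε := h0
  by_contra hn
  push Not at hn
  nlinarith

lemma cover {v : ℕ → Fin 3 → ℝ} {w : ℕ → ℝ} (hw : Gen v w) {z : Fin 3 → ℝ} (hz : z ∈ Z v)
    (hae : ∀ F S : Finset ℕ, Submodule.span ℝ (v '' F) ≠ ⊤ →
      z - ∑ j ∈ S, v j ∉ Submodule.span ℝ (v '' F)) :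
    ∃ t ∈ range 35, z ∈ Par v w (t0 t) (t1 t) (t2 t) (Set.Icc 0 1) := by
  have hK : IsCompact ({x : ℕ → ℝ | ∀ i, x i ∈ Set.Icc (0 : ℝ) 1} ∩
      {x | ∀ r, z r = ∑ i ∈ range 7, x i * v i r}) := by
    refine IsCompact.inter_right ?_ ?_
    · have := isCompact_univ_pi fun _ : ℕ => (isCompact_Icc (a := (0 : ℝ)) (b := 1))
      convert this using 1
      ext x; simp only [Set.mem_ofPred_eq, Set.mem_univ_pi]
    · rw [Set.ofPred_forall]
      exact isClosed_iInter fun r => isClosed_eq continuous_const (by fun_prop)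
  obtain ⟨x, ⟨hx, hxz⟩, hmax⟩ := hK.exists_isMaxOn (f := fun x => ∑ i ∈ range 7, x i * w i)
    (by obtain ⟨x, h1, h2⟩ := hz; exact ⟨x, h1, h2⟩) (by fun_prop)
  have hx : ∀ i, x i ∈ Set.Icc (0 : ℝ) 1 := hx
  have hxz : ∀ r, z r = ∑ i ∈ range 7, x i * v i r := hxz
  have hmax' : ∀ x' : ℕ → ℝ, (∀ i, x' i ∈ Set.Icc (0 : ℝ) 1) →
      (∀ r, ∑ i ∈ range 7, x' i * v i r = ∑ i ∈ range 7, x i * v i r) →
      ∑ i ∈ range 7, x' i * w i ≤ ∑ i ∈ range 7, x i * w i := fun x' h1 h2 =>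
    hmax ⟨h1, fun r => by rw [h2, hxz]⟩
  let F := (range 7).filter fun i => 0 < x i ∧ x i < 1
  have hF : Submodule.span ℝ (v '' F) = ⊤ := by
    by_contra hn
    refine hae F ((range 7).filter fun i => x i = 1) hn ?_
    have : z - ∑ j ∈ (range 7).filter fun i => x i = 1, v j = ∑ i ∈ F, x i • v i := by
      funext r
      simp only [Pi.sub_apply, hxz, Finset.sum_apply, F, sum_filter, ← sum_sub_distrib]
      refine sum_congr rfl fun i _ => ?_
      rcases (hx i).1.eq_or_lt with h | h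
      · simp [← h]
      rcases (hx i).2.eq_or_lt with h' | h'
      · simp [h']
      · simp [h, h', h'.ne]
    rw [this]
    exact Submodule.sum_mem _ fun i hi =>
      Submodule.smul_mem _ _ (Submodule.subset_span ⟨i, hi, rfl⟩)
  obtain ⟨a', ha', b', hb', c', hc', hD⟩ := exists_det hF
  have hF7 : ∀ i ∈ (F : Set ℕ), i < 7 := fun i hi => mem_range.1 (mem_filter.1 hi).1
  have hF1 : ∀ i ∈ (F : Set ℕ), 0 < x i ∧ x i < 1 := fun i hi => (mem_filter.1 hi).2
  rw [D_eq v (hF7 _ ha') (hF7 _ hb') (hF7 _ hc')] at hD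
  obtain h | ⟨ht, m0, m1, m2⟩ := si_mem _ (hF7 _ ha') _ (hF7 _ hb') _ (hF7 _ hc')
  · simp [h] at hD
  have hD := right_ne_zero_of_mul hD
  generalize si a' b' c' = t at *
  obtain ⟨h1, h2, h3, -⟩ := ix_tri t ht
  refine ⟨t, mem_range.2 ht, ?_⟩
  rw [mem_Par h1 h2 h3]
  unfold p at hD
  have fa : 0 < x (t0 t) ∧ x (t0 t) < 1 := by
    rcases m0 with h | h | h <;> rw [h] <;> exact hF1 _ ‹_›
  have fb : 0 < x (t1 t) ∧ x (t1 t) < 1 := by
    rcases m1 with h | h | h <;> rw [h] <;> exact hF1 _ ‹_›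
  have fc : 0 < x (t2 t) ∧ x (t2 t) < 1 := by
    rcases m2 with h | h | h <;> rw [h] <;> exact hF1 _ ‹_›
  generalize t0 t = a at *
  generalize t1 t = b at *
  generalize t2 t = c at *
  refine ⟨![x a, x b, x c], ⟨fun r => ?_, fun r => ?_⟩, fun r => ?_⟩
  · fin_cases r <;> simp [(hx _).1]
  · fin_cases r <;> simp [(hx _).2]
  rw [hxz]
  refine sum_congr rfl fun j hj => ?_
  congr 1
  unfold pt
  have hj := mem_range.1 hj
  by_cases ja : j = a
  · simp [ja]
  by_cases jb : j = b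
  · rw [if_neg ja]; simp [jb]
  by_cases jc : j = c
  · rw [if_neg ja, if_neg jb]; simp [jc]
  rw [if_neg ja, if_neg jb, if_neg jc]
  have hR := hw a (by omega) b (by omega) c h3 j hj hD ja jb jc
  have step : ∀ k : ℝ, (0 < k * D v a b c → x j < 1) → (k * D v a b c < 0 → 0 < x j) →
      k * Rc v w a b c j ≤ 0 := by
    intro k k1 k2
    have e : ∀ g : ℕ → ℝ, ∑ i ∈ range 7, k * dir v a b c j i * g i = k * Rc v g a b c j := by
      intro g
      rw [← sum_dir v g (by omega) (by omega) h3 hj, mul_sum]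
      exact sum_congr rfl fun i _ => by ring
    have hdir : ∀ i, i ≠ a → i ≠ b → i ≠ c →
        dir v a b c j i = if i = j then D v a b c else 0 := fun i e1 e2 e3 => by
      simp [dir, e1, e2, e3]
    rw [← e]
    refine lp_step (v := v) hx hmax' (fun r => ?_) (fun i hi => ?_) (fun i hi => ?_)
    · rw [e fun i => v i r, Rc_col, mul_zero]
    · by_cases e1 : i = a
      · rw [e1]; exact fa.2
      by_cases e2 : i = b
      · rw [e2]; exact fb.2
      by_cases e3 : i = c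
      · rw [e3]; exact fc.2
      rw [hdir i e1 e2 e3] at hi
      split_ifs at hi with e4
      · rw [e4]; exact k1 hi
      · simp at hi
    · by_cases e1 : i = a
      · rw [e1]; exact fa.1
      by_cases e2 : i = b
      · rw [e2]; exact fb.1
      by_cases e3 : i = c
      · rw [e3]; exact fc.1
      rw [hdir i e1 e2 e3] at hi
      split_ifs at hi with e4
      · rw [e4]; exact k2 hi
      · simp at hi
  have hDD := mul_self_pos.2 hD
  split_ifs with hρ
  · by_contra hn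
    have := step (D v a b c) (fun _ => lt_of_le_of_ne (hx j).2 hn) (fun h => by linarith)
    linarith
  · by_contra hn
    have := step (-D v a b c) (fun h => by linarith)
      (fun _ => lt_of_le_of_ne (hx j).1 (Ne.symm hn))
    exact mul_ne_zero hD hR (by linarith)

theorem vol_le (v : ℕ → Fin 3 → ℝ) : volume (Z v) ≤ ENNReal.ofReal (S1 v) := by
  obtain ⟨w, hw⟩ := exists_gen v
  have hae : ∀ᵐ z : Fin 3 → ℝ, ∀ F S : Finset ℕ, Submodule.span ℝ (v '' F) ≠ ⊤ →
      z - ∑ j ∈ S, v j ∉ Submodule.span ℝ (v '' F) := by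
    simp only [ae_all_iff]
    intro F S hF
    have := Measure.addHaar_submodule volume _ hF
    rw [← measure_preimage_add_right volume (-∑ j ∈ S, v j)] at this
    rw [ae_iff]
    convert this using 2
    ext z; simp [sub_eq_add_neg]
  calc volume (Z v) ≤ volume (⋃ t ∈ range 35, Par v w (t0 t) (t1 t) (t2 t) (Set.Icc 0 1)) := by
        refine measure_mono_ae ?_
        filter_upwards [hae] with z h hz
        obtain ⟨t, ht, h⟩ := cover hw hz h
        exact Set.mem_biUnion ht h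
    _ ≤ ∑ t ∈ range 35, volume (Par v w (t0 t) (t1 t) (t2 t) (Set.Icc 0 1)) :=
        measure_biUnion_finset_le _ _
    _ = _ := by
        rw [S1, ENNReal.ofReal_sum_of_nonneg fun _ _ => abs_nonneg _]
        refine sum_congr rfl fun t _ => ?_
        rw [vol_Par, Real.volume_Icc_pi]; simp [p]

lemma pt_mem (v : ℕ → Fin 3 → ℝ) (w : ℕ → ℝ) (a b c : ℕ) {y : Fin 3 → ℝ}
    (hy : y ∈ Set.univ.pi fun _ => Set.Ioo (0 : ℝ) 1) (i : ℕ) :
    pt v w a b c y i ∈ Set.Icc (0 : ℝ) 1 := by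
  unfold pt
  split_ifs
  exacts [Set.Ioo_subset_Icc_self (hy _ trivial), Set.Ioo_subset_Icc_self (hy _ trivial),
    Set.Ioo_subset_Icc_self (hy _ trivial), by simp, by simp]

lemma obj_lt {v : ℕ → Fin 3 → ℝ} {w : ℕ → ℝ} (hw : Gen v w) {a b c j : ℕ} (ha : a < 7) (hb : b < 7)
    (hc : c < 7) (hj : j < 7) (hD : D v a b c ≠ 0) (ja : j ≠ a) (jb : j ≠ b) (jc : j ≠ c)
    {x : ℕ → ℝ} (hx : ∀ i, x i ∈ Set.Icc (0 : ℝ) 1) (hxj : x j ∈ Set.Ioo (0 : ℝ) 1)
    {y : Fin 3 → ℝ}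
    (h : ∀ r, ∑ i ∈ range 7, x i * v i r = ∑ i ∈ range 7, pt v w a b c y i * v i r) :
    ∑ i ∈ range 7, x i * w i < ∑ i ∈ range 7, pt v w a b c y i * w i := by
  have e : ∑ i ∈ range 7, (x i - pt v w a b c y i) * (D v a b c * Rc v w a b c i) =
      D v a b c ^ 2 * (∑ i ∈ range 7, x i * w i - ∑ i ∈ range 7, pt v w a b c y i * w i) := by
    have h0 := h 0
    have h1 := h 1
    have h2 := h 2
    generalize pt v w a b c y = q at *
    have : ∀ q : ℕ → ℝ, ∑ i ∈ range 7, q i * Rc v w a b c i =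
        D v a b c * ∑ i ∈ range 7, q i * w i -
        (∑ i ∈ range 7, q i * v i 0) * ((v b 1 * v c 2 - v b 2 * v c 1) * w a +
          (v c 1 * v a 2 - v c 2 * v a 1) * w b + (v a 1 * v b 2 - v a 2 * v b 1) * w c) -
        (∑ i ∈ range 7, q i * v i 1) * ((v b 2 * v c 0 - v b 0 * v c 2) * w a +
          (v c 2 * v a 0 - v c 0 * v a 2) * w b + (v a 2 * v b 0 - v a 0 * v b 2) * w c) -
        (∑ i ∈ range 7, q i * v i 2) * ((v b 0 * v c 1 - v b 1 * v c 0) * w a +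
          (v c 0 * v a 1 - v c 1 * v a 0) * w b + (v a 0 * v b 1 - v a 1 * v b 0) * w c) := by
      intro q
      simp only [mul_sum, sum_mul, ← sum_sub_distrib]
      refine sum_congr rfl fun i _ => ?_
      simp only [Rc, D]; ring
    have e1 : ∑ i ∈ range 7, (x i - q i) * (D v a b c * Rc v w a b c i) =
        D v a b c * (∑ i ∈ range 7, x i * Rc v w a b c i - ∑ i ∈ range 7, q i * Rc v w a b c i) := by
      rw [← sum_sub_distrib, mul_sum]
      exact sum_congr rfl fun i _ => by ring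
    rw [e1, this x, this q, h0, h1, h2]; ring
  have lt : ∑ i ∈ range 7, (x i - pt v w a b c y i) * (D v a b c * Rc v w a b c i) <
      ∑ i ∈ range 7, (0 : ℝ) := by
    refine sum_lt_sum (fun i _ => ?_) ⟨j, mem_range.2 hj, ?_⟩
    · by_cases e1 : i = a
      · have : Rc v w a b c i = 0 := by rw [e1]; simp only [Rc, D]; ring
        simp [this]
      by_cases e2 : i = b
      · have : Rc v w a b c i = 0 := by rw [e2]; simp only [Rc, D]; ring
        simp [this]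
      by_cases e3 : i = c
      · have : Rc v w a b c i = 0 := by rw [e3]; simp only [Rc, D]; ring
        simp [this]
      rw [pt, if_neg e1, if_neg e2, if_neg e3]
      split_ifs with hρ
      · nlinarith [(hx i).2]
      · nlinarith [(hx i).1]
    · rw [pt, if_neg ja, if_neg jb, if_neg jc]
      have := mul_ne_zero hD (hw a ha b hb c hc j hj hD ja jb jc)
      split_ifs with hρ
      · nlinarith [hxj.2]
      · have := lt_of_le_of_ne (not_lt.1 hρ) this
        nlinarith [hxj.1]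
  rw [e, sum_const_zero] at lt
  have := sq_pos_of_ne_zero hD
  by_contra hn
  push Not at hn
  nlinarith

set_option synthInstance.maxSize 2000 in
lemma tri_ne : ∀ t < 35, ∀ t' < 35, t = t' ∨ ∃ j < 7, (j = t0 t' ∨ j = t1 t' ∨ j = t2 t') ∧
    j ≠ t0 t ∧ j ≠ t1 t ∧ j ≠ t2 t := by decide +kernel

theorem le_vol (v : ℕ → Fin 3 → ℝ) : ENNReal.ofReal (S1 v) ≤ volume (Z v) := by
  obtain ⟨w, hw⟩ := exists_gen v
  let B : Set (Fin 3 → ℝ) := Set.univ.pi fun _ => Set.Ioo 0 1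
  let T := (range 35).filter fun t => p v t ≠ 0
  have key : ∀ t ∈ T, ∀ t' ∈ T, t ≠ t' → ∀ y ∈ B, ∀ y' ∈ B,
      (∀ r, ∑ i ∈ range 7, pt v w (t0 t') (t1 t') (t2 t') y' i * v i r =
        ∑ i ∈ range 7, pt v w (t0 t) (t1 t) (t2 t) y i * v i r) →
      ∑ i ∈ range 7, pt v w (t0 t') (t1 t') (t2 t') y' i * w i <
        ∑ i ∈ range 7, pt v w (t0 t) (t1 t) (t2 t) y i * w i := by
    intro t ht t' ht' hne y hy y' hy' h
    obtain ⟨ht, hD⟩ := mem_filter.1 ht
    have ht := mem_range.1 ht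
    have ht' := mem_range.1 (mem_filter.1 ht').1
    obtain ⟨h1, h2, h3, -⟩ := ix_tri t ht
    obtain ⟨j, hj, hj', ja, jb, jc⟩ := (tri_ne t ht t' ht').resolve_left hne
    refine obj_lt hw (by omega) (by omega) h3 hj hD ja jb jc (pt_mem v w _ _ _ hy') ?_ h
    unfold pt
    split_ifs
    exacts [hy' _ trivial, hy' _ trivial, hy' _ trivial, by omega, by omega]
  have tri : ∀ t ∈ T, t0 t < t1 t ∧ t1 t < t2 t ∧ t2 t < 7 := fun t ht => by
    obtain ⟨h1, h2, h3, -⟩ := ix_tri t (mem_range.1 (mem_filter.1 ht).1)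
    exact ⟨h1, h2, h3⟩
  calc ENNReal.ofReal (S1 v) = ∑ t ∈ T, volume (Par v w (t0 t) (t1 t) (t2 t) B) := by
        rw [S1, ENNReal.ofReal_sum_of_nonneg fun _ _ => abs_nonneg _, sum_filter]
        refine sum_congr rfl fun t _ => ?_
        split_ifs with h
        · rw [vol_Par, Real.volume_pi_Ioo]; simp [p]
        · simp at h; simp [h]
    _ = volume (⋃ t ∈ T, Par v w (t0 t) (t1 t) (t2 t) B) := by
        refine (measure_biUnion_finset₀ (fun t ht t' ht' hne => ?_) fun t _ => ?_).symm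
        · refine Disjoint.aedisjoint (Set.disjoint_left.2 fun z hz hz' => ?_)
          obtain ⟨h1, h2, h3⟩ := tri t ht
          obtain ⟨h1', h2', h3'⟩ := tri t' ht'
          obtain ⟨y, hy, e⟩ := (mem_Par h1 h2 h3).1 hz
          obtain ⟨y', hy', e'⟩ := (mem_Par h1' h2' h3').1 hz'
          have k1 := key t ht t' ht' hne y hy y' hy' fun r => by rw [← e, ← e']
          have k2 := key t' ht' t ht hne.symm y' hy' y hy fun r => by rw [← e, ← e']
          linarith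
        · exact Convex.nullMeasurableSet _
            (((convex_pi fun _ _ => convex_Ioo _ _).linear_image _).translate _)
    _ ≤ _ := by
        refine measure_mono (Set.iUnion₂_subset fun t ht z hz => ?_)
        obtain ⟨h1, h2, h3⟩ := tri t ht
        obtain ⟨y, hy, e⟩ := (mem_Par h1 h2 h3).1 hz
        exact ⟨_, pt_mem v w _ _ _ hy, e⟩

theorem vol_Z (v : ℕ → Fin 3 → ℝ) : volume (Z v) = ENNReal.ofReal (S1 v) :=
  le_antisymm (vol_le v) (le_vol v)

end Pool.Agent.H.MP_416390_gt
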