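import Mathlib
import Pool.Agent.H.MP_416390_gt.V
import Pool.Agent.H.MP_416390_gt.F

namespace Pool.Agent.H.MP_416390_gt

open Finset MeasureTheory

lemma convex_Z (v : ℕ → Fin 3 → ℝ) : Convex ℝ (Z v) := by
  rintro z ⟨x, hx, hz⟩ z' ⟨y, hy, hz'⟩ a b ha hb hab
  refine ⟨fun i => a * x i + b * y i, fun i => convex_Icc 0 1 (hx i) (hy i) ha hb hab, fun r => ?_⟩
  simp only [Pi.add_apply, Pi.smul_apply, smul_eq_mul, hz, hz', mul_sum, ← sum_add_distrib]
  exact sum_congr rfl fun i _ => by ring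

theorem transfer (H : Submodule ℝ (EuclideanSpace ℝ (Fin 7))) (hH : Module.finrank ℝ H = 3) :
    ∃ v : ℕ → Fin 3 → ℝ,
      (∀ r s, ∑ i ∈ range 7, v i r * v i s = if r = s then 1 else 0) ∧
      volume (H.orthogonalProjectionOnto '' {x | ∀ i, x i ∈ Set.Icc (0 : ℝ) 1}) =
        ENNReal.ofReal (S1 v) ∧
      (∀ i : Fin 7, ‖H.orthogonalProjectionOnto (EuclideanSpace.single i 1)‖ ^ 2 =
        v i 0 ^ 2 + v i 1 ^ 2 + v i 2 ^ 2) ∧
      ∀ h ∈ H, ∃ g : Fin 3 → ℝ, ∀ i : Fin 7, h i = g 0 * v i 0 + g 1 * v i 1 + g 2 * v i 2 := by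
  let b : OrthonormalBasis (Fin 3) ℝ H := (stdOrthonormalBasis ℝ H).reindex (finCongr hH)
  let v : ℕ → Fin 3 → ℝ := fun i r =>
    if h : i < 7 then (b r : EuclideanSpace ℝ (Fin 7)) ⟨i, h⟩ else 0
  have hv : ∀ (i : Fin 7) r, v i r = (b r : EuclideanSpace ℝ (Fin 7)) i := fun i r => by
    simp [v]
  refine ⟨v, fun r s => ?_, ?_, fun i => ?_, fun h hh => ?_⟩
  · rw [sum_range]
    have := orthonormal_iff_ite.1 b.orthonormal r s
    rw [← this, Submodule.coe_inner, PiLp.inner_apply]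
    exact sum_congr rfl fun i _ => by simp [hv, mul_comm]
  · rw [← vol_Z, ← ((PiLp.volume_preserving_ofLp (Fin 3)).comp
      b.measurePreserving_repr).measure_preimage ((convex_Z v).nullMeasurableSet _)]
    congr 1
    have key : ∀ (x : EuclideanSpace ℝ (Fin 7)) r,
        b.repr (H.orthogonalProjectionOnto x) r = ∑ i : Fin 7, x i * v i r := by
      intro x r
      rw [b.repr_apply_apply, Submodule.inner_orthogonalProjectionOnto_eq_of_mem_left,
        PiLp.inner_apply]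
      exact sum_congr rfl fun i _ => by simp [hv]
    ext h
    constructor
    · rintro ⟨x, hx, rfl⟩
      refine ⟨fun i => if h : i < 7 then x ⟨i, h⟩ else 0, fun i => ?_, fun r => ?_⟩
      · beta_reduce
        split_ifs
        exacts [hx _, by simp]
      · rw [sum_range]
        refine (key x r).trans (sum_congr rfl fun i _ => by simp)
    · rintro ⟨x, hx, hz⟩
      refine ⟨WithLp.toLp 2 fun i : Fin 7 => x i, fun i => hx _, b.repr.injective ?_⟩
      ext r
      rw [key]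
      have := hz r
      rw [sum_range] at this
      exact this.symm
  · rw [← b.sum_sq_inner_right, Fin.sum_univ_three]
    simp only [Submodule.inner_orthogonalProjectionOnto_eq_of_mem_left,
      EuclideanSpace.inner_single_right, hv]
    simp
  · refine ⟨b.repr ⟨h, hh⟩, fun i => ?_⟩
    have := congrArg (fun y : H => (y : EuclideanSpace ℝ (Fin 7)) i) (b.sum_repr ⟨h, hh⟩)
    simp only [Fin.sum_univ_three] at this
    simpa [hv] using this.symm

def AI (r i : ℕ) : ℤ :=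
  ([[20, 0, 0, -33, 31, -18, 40], [0, 20, 0, -12, 31, -31, 32],
    [0, 0, 20, 31, -20, 33, -44]].getD r []).getD i 0

def DI (a b c : ℕ) : ℤ :=
  AI 0 a * (AI 1 b * AI 2 c - AI 2 b * AI 1 c) - AI 1 a * (AI 0 b * AI 2 c - AI 2 b * AI 0 c) +
    AI 2 a * (AI 0 b * AI 1 c - AI 1 b * AI 0 c)

lemma sum_DI : ∑ t ∈ range 35, |DI (t0 t) (t1 t) (t2 t)| = 381052 := by decide +kernel

def GI (r s : ℕ) : ℤ := ∑ i ∈ range 7, AI r i * AI s i

lemma det_GI : GI 0 0 * (GI 1 1 * GI 2 2 - GI 1 2 * GI 1 2) -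
    GI 0 1 * (GI 0 1 * GI 2 2 - GI 1 2 * GI 0 2) + GI 0 2 * (GI 0 1 * GI 1 2 - GI 1 1 * GI 0 2) =
    4624068944 := by decide +kernel

noncomputable def row (r : Fin 3) : EuclideanSpace ℝ (Fin 7) :=
  WithLp.toLp 2 fun i : Fin 7 => (AI r i : ℝ)

lemma row_li : LinearIndependent ℝ row := by
  rw [Fintype.linearIndependent_iff]
  intro g hg r
  have h := fun i : Fin 7 => congrArg (fun y : EuclideanSpace ℝ (Fin 7) => y i) hg
  have h0 := h 0
  have h1 := h 1
  have h2 := h 2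
  simp [Fin.sum_univ_three, row, AI] at h0 h1 h2
  fin_cases r <;> assumption

theorem main : ∃ H₀ : Submodule ℝ (EuclideanSpace ℝ (Fin 7)), Module.finrank ℝ H₀ = 3 ∧
    ∀ H : Submodule ℝ (EuclideanSpace ℝ (Fin 7)), Module.finrank ℝ H = 3 →
      (∀ i j, ‖H.orthogonalProjectionOnto (EuclideanSpace.single i 1)‖ =
        ‖H.orthogonalProjectionOnto (EuclideanSpace.single j 1)‖) →
      volume (H.orthogonalProjectionOnto '' {x | ∀ i, x i ∈ Set.Icc (0 : ℝ) 1}) <
        volume (H₀.orthogonalProjectionOnto '' {x | ∀ i, x i ∈ Set.Icc (0 : ℝ) 1}) := by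
  have h0 : Module.finrank ℝ (Submodule.span ℝ (Set.range row)) = 3 := by
    rw [finrank_span_eq_card row_li]; simp
  refine ⟨_, h0, fun H hH hn => ?_⟩
  obtain ⟨v, v1, v2, v3, -⟩ := transfer H hH
  obtain ⟨u, u1, u2, -, u4⟩ := transfer _ h0
  rw [v2, u2]
  have hv : Tight v := by
    refine ⟨v1, fun i hi => ?_⟩
    have e : ∀ j ∈ range 7, v j 0 * v j 0 + v j 1 * v j 1 + v j 2 * v j 2 =
        v i 0 ^ 2 + v i 1 ^ 2 + v i 2 ^ 2 := fun j hj => by
      have := v3 ⟨j, mem_range.1 hj⟩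
      rw [hn _ ⟨i, hi⟩, v3] at this
      simp only at this
      linarith
    have := sum_congr rfl e
    rw [sum_add_distrib, sum_add_distrib, v1, v1, v1] at this
    simp at this
    linarith
  have b1 := tight_bound v hv
  choose g hg using fun r => u4 (row r) (Submodule.subset_span ⟨r, rfl⟩)
  have hg' : ∀ (r : Fin 3), ∀ i < 7, (AI r i : ℝ) = g r 0 * u i 0 + g r 1 * u i 1 + g r 2 * u i 2 :=
    fun r i hi => hg r ⟨i, hi⟩
  obtain ⟨δ, hδ⟩ : ∃ δ, δ = g 0 0 * (g 1 1 * g 2 2 - g 1 2 * g 2 1) -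
    g 0 1 * (g 1 0 * g 2 2 - g 1 2 * g 2 0) + g 0 2 * (g 1 0 * g 2 1 - g 1 1 * g 2 0) := ⟨_, rfl⟩
  have e1 : |δ| * S1 u = 381052 := by
    have : ((∑ t ∈ range 35, |DI (t0 t) (t1 t) (t2 t)| : ℤ) : ℝ) = (381052 : ℤ) := by rw [sum_DI]
    push_cast at this
    rw [← this, S1, mul_sum]
    refine sum_congr rfl fun t ht => ?_
    obtain ⟨h1, h2, h3, -⟩ := ix_tri t (mem_range.1 ht)
    rw [← abs_mul, p, DI]
    push_cast
    have a0 := hg' 0 (t0 t) (by omega)
    have a1 := hg' 1 (t0 t) (by omega)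
    have a2 := hg' 2 (t0 t) (by omega)
    have b0 := hg' 0 (t1 t) (by omega)
    have b1 := hg' 1 (t1 t) (by omega)
    have b2 := hg' 2 (t1 t) (by omega)
    have c0 := hg' 0 (t2 t) h3
    have c1 := hg' 1 (t2 t) h3
    have c2 := hg' 2 (t2 t) h3
    simp only [Fin.val_zero, Fin.val_one, Fin.val_two] at a0 a1 a2 b0 b1 b2 c0 c1 c2
    rw [a0, a1, a2, b0, b1, b2, c0, c1, c2, hδ, D]
    congr 1; ring
  have hG : ∀ r s : Fin 3, (GI r s : ℝ) = g r 0 * g s 0 + g r 1 * g s 1 + g r 2 * g s 2 := by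
    intro r s
    have : (GI r s : ℝ) = g r 0 * g s 0 * ∑ i ∈ range 7, u i 0 * u i 0 +
        g r 1 * g s 1 * ∑ i ∈ range 7, u i 1 * u i 1 + g r 2 * g s 2 * ∑ i ∈ range 7, u i 2 * u i 2 +
        (g r 0 * g s 1 + g r 1 * g s 0) * ∑ i ∈ range 7, u i 0 * u i 1 +
        (g r 0 * g s 2 + g r 2 * g s 0) * ∑ i ∈ range 7, u i 0 * u i 2 +
        (g r 1 * g s 2 + g r 2 * g s 1) * ∑ i ∈ range 7, u i 1 * u i 2 := by
      rw [GI]
      push_cast
      simp only [mul_sum, ← sum_add_distrib]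
      refine sum_congr rfl fun i hi => ?_
      rw [hg' r i (mem_range.1 hi), hg' s i (mem_range.1 hi)]; ring
    rw [this, u1, u1, u1, u1, u1, u1]; simp
  have e2 : δ ^ 2 = 4624068944 := by
    have := congrArg (Int.cast (R := ℝ)) det_GI
    push_cast at this
    have g00 := hG 0 0
    have g01 := hG 0 1
    have g02 := hG 0 2
    have g11 := hG 1 1
    have g12 := hG 1 2
    have g22 := hG 2 2
    simp only [Fin.val_zero, Fin.val_one, Fin.val_two] at g00 g01 g02 g11 g12 g22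
    rw [g00, g01, g02, g11, g12, g22] at this
    rw [← this, hδ]; ring
  have e3 : 4624068944 * S1 u ^ 2 = 381052 ^ 2 := by
    rw [← e1, ← e2, mul_pow, sq_abs]
  have p1 : 0 ≤ S1 v := sum_nonneg fun _ _ => abs_nonneg _
  have p2 : 0 ≤ S1 u := sum_nonneg fun _ _ => abs_nonneg _
  have lt : S1 v < S1 u := by
    by_contra h
    push Not at h
    nlinarith
  exact (ENNReal.ofReal_lt_ofReal_iff (lt_of_le_of_lt p1 lt)).2 lt

end Pool.Agent.H.MP_416390_gt
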